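import Pool.Agent.T2H73.SB.LimB
import Pool.Agent.R972.OP.All2
import Pool.Agent.R972.OP.Stm4
import Pool.Agent.R972.OP.WchA
import Pool.Agent.R650.OP.Uph

/-!
# Signed order polytopes: Poincare's and Cheeger's inequality
-/

set_option autoImplicit false

namespace Pool.Agent.T2H73.SB

open MeasureTheory Set Filter Topology
open scoped ENNReal InnerProductSpace
open Pool.Agent.R972.OP (lp pd cb ch GH WC)
open Pool.Agent.W695.KH (Eu EU EV VV Sm Pot Uu)

theorem lat_all : S_LATB := latB (conB t_PTB) connB Pool.Agent.R972.OP.la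

/-! ### the weights -/

theorem wo_cos (N : ℕ) (hN : 0 < N) :
    WO N (fun k => -Real.cos (Real.pi * ((k : ℝ) + 1 / 2) / ((2 * N : ℕ) : ℝ)))
      (fun _ => cb (2 * N)) := by
  have h := Pool.Agent.R515.OP.wcb.1 (2 * N) (by omega)
  refine ⟨h.mono, fun k hk => ?_, fun k hk => h.nonneg k (by omega), fun j hj => ?_⟩
  · have hM : (0 : ℝ) < ((2 * N : ℕ) : ℝ) := by exact_mod_cast (by omega : 0 < 2 * N)
    have e1 : ((2 * N - 1 - k : ℕ) : ℝ) = ((2 * N : ℕ) : ℝ) - 1 - k := by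
      rw [Nat.cast_sub (by omega), Nat.cast_sub (by omega)]
      simp
    have e2 : Real.pi * (((2 * N : ℕ) : ℝ) - 1 - k + 1 / 2) / ((2 * N : ℕ) : ℝ) =
        Real.pi - Real.pi * ((k : ℝ) + 1 / 2) / ((2 * N : ℕ) : ℝ) := by
      field_simp
      ring
    show -Real.cos (Real.pi * (((2 * N - 1 - k : ℕ) : ℝ) + 1 / 2) / ((2 * N : ℕ) : ℝ)) =
      -(-Real.cos (Real.pi * ((k : ℝ) + 1 / 2) / ((2 * N : ℕ) : ℝ)))
    rw [e1, e2, Real.cos_pi_sub]
  · have := h.eq j (by omega)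
    rw [if_pos (show j + 1 < 2 * N by omega)] at this
    rw [zero_sub] at this
    exact this

theorem cb_le (M k : ℕ) (h : k + 1 < M) : cb M ≤ (M : ℝ) ^ 2 := by
  have hM : (2 : ℝ) ≤ M := by exact_mod_cast (by omega : 2 ≤ M)
  have hM0 : (0 : ℝ) < M := by linarith
  have h1 : 1 / (M : ℝ) ≤ Real.sin (Real.pi / (2 * M)) := by
    have h2 := Real.mul_le_sin (x := Real.pi / (2 * M)) (by positivity) (by
      apply div_le_div_of_nonneg_left Real.pi_pos.le (by norm_num)
      linarith)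
    refine le_trans (le_of_eq ?_) h2
    have := Real.pi_ne_zero
    field_simp
  have h3 : (1 / (M : ℝ)) ^ 2 ≤ Real.sin (Real.pi / (2 * M)) ^ 2 :=
    pow_le_pow_left₀ (by positivity) h1 2
  unfold cb
  rw [div_le_iff₀ (by nlinarith [show (0 : ℝ) < (1 / (M : ℝ)) ^ 2 by positivity])]
  have h4 : (M : ℝ) ^ 2 * (1 / (M : ℝ)) ^ 2 = 1 := by field_simp
  nlinarith [mul_le_mul_of_nonneg_left h3 (show (0 : ℝ) ≤ (M : ℝ) ^ 2 by positivity)]

open Pool.Agent.R972.OP.WCHaux in
theorem wo_hardy (N : ℕ) (hN : 0 < N) : ∃ W c : ℕ → ℝ, WO N W c ∧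
    ∀ k, k < N → c k ≤ ch (2 * N) k := by
  obtain ⟨M, hM⟩ : ∃ M, M = 2 * N := ⟨_, rfl⟩
  have hrs : ∀ k, k ≤ M → rr M (M - k) = rr M k := by
    intro k hk
    unfold rr
    rw [Nat.cast_sub hk]
    congr 1
    ring
  refine ⟨fun k => rr M k - rr M (k + 1),
    fun k => rr M (k + 1) / (2 * rr M (k + 1) - rr M (k + 2) - rr M k), ⟨?_, ?_, ?_, ?_⟩, ?_⟩
  · intro k hk
    have := D_pos M k (by omega)
    show rr M k - rr M (k + 1) < rr M (k + 1) - rr M (k + 2)
    linarith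
  · intro k hk
    show rr M (2 * N - 1 - k) - rr M (2 * N - 1 - k + 1) = -(rr M k - rr M (k + 1))
    have e1 : 2 * N - 1 - k = M - (k + 1) := by omega
    have e2 : 2 * N - 1 - k + 1 = M - k := by omega
    rw [e2, e1, hrs _ (by omega), hrs _ (by omega)]
    ring
  · intro k hk
    exact div_nonneg (rr_nonneg _ _) (D_pos M k (by omega)).le
  · intro j hj
    have h1 : rr M (j + 1) / (2 * rr M (j + 1) - rr M (j + 2) - rr M j) *
        (rr M (j + 1) - rr M (j + 1 + 1) - (rr M j - rr M (j + 1))) = rr M (j + 1) := by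
      have hD := (D_pos M j (by omega)).ne'
      have e : rr M (j + 1) - rr M (j + 1 + 1) - (rr M j - rr M (j + 1)) =
          2 * rr M (j + 1) - rr M (j + 2) - rr M j := by
        have : j + 1 + 1 = j + 2 := rfl
        rw [this]; ring
      rw [e, div_mul_cancel₀ _ hD]
    have h2 : (if 0 < j then rr M (j - 1 + 1) / (2 * rr M (j - 1 + 1) - rr M (j - 1 + 2) -
        rr M (j - 1)) * (rr M j - rr M (j + 1) - (rr M (j - 1) - rr M (j - 1 + 1))) else 0) =
        rr M j := by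
      rcases j with _ | i
      · simp [rr_zero]
      · have hD := (D_pos M i (by omega)).ne'
        simp only [Nat.succ_pos, if_true, Nat.add_sub_cancel]
        have e : rr M (i + 1) - rr M (i + 1 + 1) - (rr M i - rr M (i + 1)) =
            2 * rr M (i + 1) - rr M (i + 2) - rr M i := by
          have : i + 1 + 1 = i + 2 := rfl
          rw [this]; ring
        rw [e, div_mul_cancel₀ _ hD]
    refine (congrArg₂ (fun x y : ℝ => x - y) h1 h2).trans ?_
    show rr M (j + 1) - rr M j = -(rr M j - rr M (j + 1))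
    ring
  · intro k hk
    have hkM : k + 1 < M := by omega
    have hD := D_pos M k hkM
    have h1 := rr_key M k hkM
    have hr := rr_pos M k hkM
    have hM0 : (0 : ℝ) < M := by exact_mod_cast (by omega : 0 < M)
    have hNp : (0 : ℝ) < (M : ℝ) ^ 2 := by positivity
    have hq : ((k : ℝ) + 1) * ((M : ℝ) - 1 - k) = rr M (k + 1) ^ 2 := by
      rw [rr_sq M _ (by omega)]; push_cast; ring
    rw [← hM]
    show rr M (k + 1) / (2 * rr M (k + 1) - rr M (k + 2) - rr M k) ≤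
      4 * (((k : ℝ) + 1) * ((M : ℝ) - 1 - k)) ^ 2 / (M : ℝ) ^ 2
    rw [hq, div_le_div_iff₀ hD hNp]
    calc rr M (k + 1) * (M : ℝ) ^ 2 ≤ rr M (k + 1) *
        (4 * rr M (k + 1) ^ 3 * (2 * rr M (k + 1) - rr M (k + 2) - rr M k)) :=
          mul_le_mul_of_nonneg_left h1 hr.le
      _ = 4 * (rr M (k + 1) ^ 2) ^ 2 * (2 * rr M (k + 1) - rr M (k + 2) - rr M k) := by ring

/-! ### Poincare inequalities -/

/-- the sharp Poincare inequality -/
theorem pobB {n : ℕ} {R : Fin n × Bool → Fin n × Bool → Prop} (hR : ∀ l, ¬ R l l)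
    {f : (Fin n → ℝ) → ℝ} (hf : ContDiff ℝ 1 f) :
    (volume (OPB R)).toReal * (∫ x in OPB R, f x ^ 2) - (∫ x in OPB R, f x) ^ 2 ≤
      (volume (OPB R)).toReal * (1 / Real.pi ^ 2 * ∫ x in OPB R, ∑ a, pd f a x ^ 2) := by
  obtain ⟨err, C, herr, hC, hbd⟩ := Pool.Agent.R874.OP.upb n f hf
  have hcpd : ∀ a, Continuous (pd f a) := by
    intro a
    unfold pd
    exact (hf.continuous_fderiv (by norm_num)).clm_apply continuous_const
  have hcG : Continuous (fun x => 2 / Real.pi ^ 2 * ∑ a, pd f a x ^ 2) :=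
    continuous_const.mul (continuous_finsetSum _ fun a _ => (hcpd a).pow 2)
  have key := limB lat_all rsB adjB_all hR hf (fun M _ => cb M)
    (fun x => 2 / Real.pi ^ 2 * ∑ a, pd f a x ^ 2) hcG
    (fun N hN => ⟨_, _, wo_cos N hN, fun k _ => le_rfl⟩)
    (fun M k _ => by unfold cb; positivity) (fun N k _ => rfl)
    (fun M k h => cb_le M k h) err herr (fun N g hN hg hi => (hbd N g hN hg hi).1)
  refine key.trans (le_of_eq ?_)
  rw [integral_const_mul]
  ring

/-- the weighted Poincare inequality -/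
theorem pohB {n : ℕ} {R : Fin n × Bool → Fin n × Bool → Prop} (hR : ∀ l, ¬ R l l)
    {f : (Fin n → ℝ) → ℝ} (hf : ContDiff ℝ 1 f) :
    (volume (OPB R)).toReal * (∫ x in OPB R, f x ^ 2) - (∫ x in OPB R, f x) ^ 2 ≤
      (volume (OPB R)).toReal * ∫ x in OPB R, GH f x := by
  obtain ⟨err, C, herr, hC, hbd⟩ := Pool.Agent.R650.OP.uph n f hf
  have hcpd : ∀ a, Continuous (pd f a) := by
    intro a
    unfold pd
    exact (hf.continuous_fderiv (by norm_num)).clm_apply continuous_const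
  have hcG : Continuous (fun x => GH f x) := by
    unfold GH
    refine continuous_finsetSum _ fun a _ => ?_
    have hx : Continuous fun x : Fin n → ℝ => x a := continuous_apply a
    exact ((continuous_const.mul (hx.pow 2)).mul ((continuous_const.sub hx).pow 2)).mul
      ((hcpd a).pow 2)
  have key := limB lat_all rsB adjB_all hR hf ch (fun x => 2 * GH f x)
    (continuous_const.mul hcG) wo_hardy
    (fun M k _ => by unfold ch; positivity) (fun N k h => by
      unfold ch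
      have e1 : ((2 * N - 2 - k : ℕ) : ℝ) = ((2 * N : ℕ) : ℝ) - 2 - k := by
        rw [Nat.cast_sub (by omega), Nat.cast_sub (by omega)]
        simp
      rw [e1]
      ring)
    (fun M k h => by
      have h' : (k : ℝ) + 1 ≤ M := by exact_mod_cast (by omega : k + 1 ≤ M)
      have hk : (0 : ℝ) ≤ k := Nat.cast_nonneg k
      have hM : (0 : ℝ) < M := by linarith
      unfold ch
      rw [div_le_iff₀ (by positivity)]
      have h1 : ((k : ℝ) + 1) * ((M : ℝ) - 1 - k) ≤ (M : ℝ) ^ 2 / 4 := by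
        nlinarith [sq_nonneg (2 * ((k : ℝ) + 1) - M)]
      have h2 : 0 ≤ ((k : ℝ) + 1) * ((M : ℝ) - 1 - k) :=
        mul_nonneg (by linarith) (by linarith)
      have h3 : (((k : ℝ) + 1) * ((M : ℝ) - 1 - k)) ^ 2 ≤ ((M : ℝ) ^ 2 / 4) ^ 2 :=
        pow_le_pow_left₀ h2 h1 2
      nlinarith [show (0 : ℝ) ≤ (M : ℝ) ^ 2 * (M : ℝ) ^ 2 by positivity]) err herr
    (fun N g hN hg hi => (hbd N g hN hg hi).1)
  refine key.trans (le_of_eq ?_)
  rw [integral_const_mul]
  ring

/-! ### Euclidean space -/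

/-- signed order polytope in Euclidean space -/
def OEB {n : ℕ} (R : Fin n × Bool → Fin n × Bool → Prop) : Set (Eu (Fin n)) :=
  {x | (∀ i, 0 ≤ x i ∧ x i ≤ 1) ∧ ∀ l m, R l m → vl (WithLp.ofLp x) l ≤ vl (WithLp.ofLp x) m}

theorem pre_eq {n : ℕ} (R : Fin n × Bool → Fin n × Bool → Prop) :
    (fun x : Fin n → ℝ => (WithLp.toLp 2 x : Eu (Fin n))) ⁻¹' (OEB R) = OPB R := by
  ext x
  simp [OEB, OPB]

theorem trB (n : ℕ) (R : Fin n × Bool → Fin n × Bool → Prop) :
    volume (OEB R) = volume (OPB R) ∧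
    ∀ G : Eu (Fin n) → ℝ, ∫ x in OEB R, G x = ∫ x in OPB R, G (WithLp.toLp 2 x) := by
  have hmp := PiLp.volume_preserving_toLp (Fin n)
  have hme : MeasurableEmbedding (fun x : Fin n → ℝ => (WithLp.toLp 2 x : Eu (Fin n))) :=
    (MeasurableEquiv.toLp 2 (Fin n → ℝ)).measurableEmbedding
  refine ⟨?_, fun G => ?_⟩
  · rw [← pre_eq R]
    exact (hmp.measure_preimage_emb hme (OEB R)).symm
  · rw [← pre_eq R]
    exact (hmp.setIntegral_preimage_emb hme G (OEB R)).symm

theorem cont_vl {n : ℕ} (l : Fin n × Bool) :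
    Continuous fun x : Eu (Fin n) => vl (WithLp.ofLp x) l :=
  (continuous_vl l).comp (PiLp.continuous_ofLp 2 _)

theorem closedB {n : ℕ} (R : Fin n × Bool → Fin n × Bool → Prop) : IsClosed (OEB R) := by
  have e : OEB R = (⋂ i, ({x : Eu (Fin n) | 0 ≤ x i} ∩ {x | x i ≤ 1})) ∩
      ⋂ i, ⋂ j, ⋂ (_ : R i j), {x : Eu (Fin n) | vl (WithLp.ofLp x) i ≤ vl (WithLp.ofLp x) j} := by
    ext x
    simp only [OEB, mem_ofPred_eq, mem_inter_iff, mem_iInter]
  rw [e]
  refine IsClosed.inter (isClosed_iInter fun i => IsClosed.inter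
    (isClosed_le continuous_const (Pool.Agent.R609.OP.cont i))
    (isClosed_le (Pool.Agent.R609.OP.cont i) continuous_const)) ?_
  exact isClosed_iInter fun i => isClosed_iInter fun j => isClosed_iInter fun _ =>
    isClosed_le (cont_vl i) (cont_vl j)

theorem compactB {n : ℕ} (R : Fin n × Bool → Fin n × Bool → Prop) : IsCompact (OEB R) := by
  refine Metric.isCompact_of_isClosed_isBounded (closedB R) ?_
  refine (Metric.isBounded_closedBall (x := (0 : Eu (Fin n))) (r := Real.sqrt n)).subset ?_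
  intro x hx
  rw [mem_closedBall_zero_iff, EuclideanSpace.norm_eq]
  refine Real.sqrt_le_sqrt ?_
  calc ∑ i, ‖x i‖ ^ 2 ≤ ∑ _i : Fin n, (1 : ℝ) := by
        refine Finset.sum_le_sum fun i _ => ?_
        have h := hx.1 i
        rw [Real.norm_eq_abs, sq_abs]
        nlinarith [h.1, h.2]
    _ = n := by simp

theorem vl_comb {n : ℕ} (x y : Fin n → ℝ) (a b : ℝ) (hab : a + b = 1) (l : Fin n × Bool) :
    vl (a • x + b • y) l = a * vl x l + b * vl y l := by
  unfold vl
  split_ifs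
  · simp
  · simp only [Pi.add_apply, Pi.smul_apply, smul_eq_mul]
    linear_combination -hab

theorem convexB {n : ℕ} (R : Fin n × Bool → Fin n × Bool → Prop) : Convex ℝ (OEB R) := by
  intro x hx y hy a b ha hb hab
  have e : ∀ i, (a • x + b • y) i = a * x i + b * y i := by
    intro i
    simp
  have e2 : ∀ l, vl (WithLp.ofLp (a • x + b • y)) l =
      a * vl (WithLp.ofLp x) l + b * vl (WithLp.ofLp y) l := by
    intro l
    rw [← vl_comb _ _ a b hab l]
    rfl
  refine ⟨fun i => ?_, fun i j hij => ?_⟩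
  · have h1 := hx.1 i
    have h2 := hy.1 i
    rw [e]
    constructor
    · exact add_nonneg (mul_nonneg ha h1.1) (mul_nonneg hb h2.1)
    · nlinarith [mul_le_mul_of_nonneg_left h1.2 ha, mul_le_mul_of_nonneg_left h2.2 hb]
  · rw [e2, e2]
    exact add_le_add (mul_le_mul_of_nonneg_left (hx.2 i j hij) ha)
      (mul_le_mul_of_nonneg_left (hy.2 i j hij) hb)

theorem OEB_ne {n : ℕ} (R : Fin n × Bool → Fin n × Bool → Prop) :
    OEB R = OEB fun l m => R l m ∧ l ≠ m := by
  ext x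
  constructor
  · rintro ⟨h3, h4⟩
    exact ⟨h3, fun i j hij => h4 i j hij.1⟩
  · rintro ⟨h3, h4⟩
    refine ⟨h3, fun i j hij => ?_⟩
    by_cases h : i = j
    · rw [h]
    · exact h4 i j ⟨hij, h⟩

/-- the sharp Poincare inequality in Euclidean space -/
theorem pobeB {n : ℕ} (R : Fin n × Bool → Fin n × Bool → Prop) (f : Eu (Fin n) → ℝ)
    (hf : ContDiff ℝ 1 f) :
    VV (OEB R) f ≤ 1 / Real.pi ^ 2 * EV (OEB R) fun x => ‖fderiv ℝ f x‖ ^ 2 := by
  rw [OEB_ne R]
  obtain ⟨R', hR'⟩ : ∃ R' : Fin n × Bool → Fin n × Bool → Prop, R' = fun l m => R l m ∧ l ≠ m :=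
    ⟨_, rfl⟩
  rw [← hR']
  obtain ⟨hv, hG⟩ := trB n R'
  have hF : ContDiff ℝ 1 (f ∘ Pool.Agent.R711.POBE.L n) :=
    hf.comp (Pool.Agent.R711.POBE.L n).contDiff
  have h3 := pobB (R := R') (fun a h => by rw [hR'] at h; exact h.2 rfl) hF
  have e1 : ∫ x in OEB R', f x = ∫ x in OPB R', (f ∘ Pool.Agent.R711.POBE.L n) x := hG f
  have e2 : ∫ x in OEB R', f x ^ 2 = ∫ x in OPB R', (f ∘ Pool.Agent.R711.POBE.L n) x ^ 2 :=
    hG fun x => f x ^ 2
  have e3 : ∫ x in OEB R', ‖fderiv ℝ f x‖ ^ 2 =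
      ∫ x in OPB R', ∑ a, pd (f ∘ Pool.Agent.R711.POBE.L n) a x ^ 2 := by
    rw [hG fun x => ‖fderiv ℝ f x‖ ^ 2]
    simp only [Pool.Agent.R711.POBE.sum_pd]
  rw [← hv, ← e1, ← e2, ← e3] at h3
  simp only [VV, EV]
  set v : ℝ := (volume (OEB R')).toReal with hvdef
  have hv0 : 0 ≤ v := ENNReal.toReal_nonneg
  rcases hv0.eq_or_lt with h0 | h0
  · rw [← h0]
    simp
  · have h4 : (∫ x in OEB R', f x ^ 2) / v - ((∫ x in OEB R', f x) / v) ^ 2 =
        (v * (∫ x in OEB R', f x ^ 2) - (∫ x in OEB R', f x) ^ 2) / v ^ 2 := by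
      field_simp
    have h5 : 1 / Real.pi ^ 2 * ((∫ x in OEB R', ‖fderiv ℝ f x‖ ^ 2) / v) =
        (v * (1 / Real.pi ^ 2 * ∫ x in OEB R', ‖fderiv ℝ f x‖ ^ 2)) / v ^ 2 := by
      field_simp
    rw [h4, h5]
    exact div_le_div_of_nonneg_right h3 (by positivity)

/-- Cheeger's inequality at all levels -/
theorem allB {n : ℕ} (R : Fin n × Bool → Fin n × Bool → Prop) (hv : 0 < volume (OEB R))
    (μ : Measure (Eu (Fin n))) (hμ : μ = (volume (OEB R))⁻¹ • volume.restrict (OEB R))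
    (S : Set (Eu (Fin n))) (hS : MeasurableSet S) :
    μ S * (1 - μ S) ≤ ENNReal.ofReal (4 / Real.pi) *
      liminf (fun ε : ℝ => (μ (Metric.thickening ε S) - μ S) / ENNReal.ofReal ε) (𝓝[>] 0) := by
  have hc := compactB R
  have hco := convexB R
  have hpi : 0 < Real.pi := Real.pi_pos
  refine Pool.Agent.W695.KH.mink (Fin n) (OEB R) hc hco hv (4 / Real.pi) (by positivity) ?_ μ hμ
    S hS
  intro f L M hf hb
  have h1 := Pool.Agent.R972.OP.bodl_all (Fin n) (OEB R) hc hco hv (1 / Real.pi ^ 2)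
    (by positivity) (fun v hv1 => pobeB R v hv1) f L M hf hb
  have h2 : 4 * Real.sqrt (1 / Real.pi ^ 2) = 4 / Real.pi := by
    rw [Real.sqrt_div zero_le_one, Real.sqrt_one, Real.sqrt_sq hpi.le]
    ring
  rwa [h2] at h1

end Pool.Agent.T2H73.SB
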