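import Pool.Agent.T2H73.SB.Stm
import Pool.Agent.R372.OP.SYM
import Pool.Agent.R364.OP.RS

/-!
# Signed order cones: functions invariant under the hyperoctahedral group
-/

set_option autoImplicit false

namespace Pool.Agent.T2H73.SB

open MeasureTheory Set Filter Topology

variable {n : ℕ}

/-- sign -/
def sg (b : Bool) : ℝ := if b = true then 1 else -1

theorem sg_mul_sg (b c : Bool) : sg b * sg c = sg (!(xor b c)) := by
  cases b <;> cases c <;> simp [sg]

theorem sg_sq (b : Bool) : sg b * sg b = 1 := by
  cases b <;> simp [sg]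

/-- signed value of a literal -/
def sv (x : Fin n → ℝ) (l : Fin n × Bool) : ℝ := sg l.2 * x l.1

/-- signed order cone -/
def CB (R : Fin n × Bool → Fin n × Bool → Prop) : Set (Fin n → ℝ) :=
  {x | ∀ l m, R l m → sv x l ≤ sv x m}

theorem isClosed_CB (R : Fin n × Bool → Fin n × Bool → Prop) : IsClosed (CB R) := by
  have e : CB R = ⋂ i, ⋂ j, ⋂ (_ : R i j), {x : Fin n → ℝ | sv x i ≤ sv x j} := by
    ext x
    simp only [CB, mem_ofPred_eq, mem_iInter]
  rw [e]
  have hc : ∀ l : Fin n × Bool, Continuous fun x : Fin n → ℝ => sv x l := by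
    intro l
    unfold sv
    fun_prop
  exact isClosed_iInter fun i => isClosed_iInter fun j => isClosed_iInter fun _ =>
    isClosed_le (hc i) (hc j)

/-- action of a signed permutation -/
def act (q : Equiv.Perm (Fin n) × (Fin n → Bool)) (x : Fin n → ℝ) : Fin n → ℝ :=
  fun i => sg (q.2 i) * x (q.1 i)

theorem act_mp (q : Equiv.Perm (Fin n) × (Fin n → Bool)) :
    MeasurePreserving (act q) volume volume ∧
    ∀ H : (Fin n → ℝ) → ℝ, ∫ x : Fin n → ℝ, H (act q x) = ∫ x, H x := by
  have h1 := Pool.Agent.R372.OP.SYM.perm (n := n) q.1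
  -- the signs
  have h2 : MeasurePreserving (fun (x : Fin n → ℝ) i => sg (q.2 i) * x i) volume volume := by
    have : (fun (x : Fin n → ℝ) i => sg (q.2 i) * x i) =
        fun (x : Fin n → ℝ) i => (fun i (t : ℝ) => sg (q.2 i) * t) i (x i) := rfl
    rw [this]
    refine volume_preserving_pi fun i => ?_
    by_cases h : q.2 i = true
    · have e : (fun t : ℝ => sg (q.2 i) * t) = id := by
        funext t; simp [sg, h]
      show MeasurePreserving (fun t : ℝ => sg (q.2 i) * t) volume volume
      rw [e]
      exact MeasurePreserving.id _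
    · have e : (fun t : ℝ => sg (q.2 i) * t) = Neg.neg := by
        funext t; simp [sg, h]
      show MeasurePreserving (fun t : ℝ => sg (q.2 i) * t) volume volume
      rw [e]
      exact Measure.measurePreserving_neg volume
  have h3 : MeasurePreserving (act q) volume volume := h2.comp h1.1
  refine ⟨h3, fun H => ?_⟩
  have hinv : ∀ x : Fin n → ℝ, (fun i => sg (q.2 i) * (sg (q.2 i) * x i)) = x := by
    intro x
    funext i
    rw [← mul_assoc, sg_sq, one_mul]
  let e2 : (Fin n → ℝ) ≃ᵐ (Fin n → ℝ) :=
    { toFun := fun x i => sg (q.2 i) * x i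
      invFun := fun x i => sg (q.2 i) * x i
      left_inv := hinv
      right_inv := hinv
      measurable_toFun := h2.measurable
      measurable_invFun := h2.measurable }
  have h4 : ∫ x : Fin n → ℝ, H (fun i => sg (q.2 i) * x i) = ∫ x, H x :=
    MeasurePreserving.integral_comp' (f := e2) h2 H
  have h5 := h1.2 fun x => H (fun i => sg (q.2 i) * x i)
  exact h5.trans h4

/-- generic points -/
theorem genericB : ∀ᵐ x : Fin n → ℝ, (Function.Injective fun i => |x i|) ∧ ∀ i, x i ≠ 0 := by
  have h1 : ∀ (i j : Fin n) (s : ℝ), i ≠ j → ∀ᵐ x : Fin n → ℝ, x i ≠ s * x j := by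
    intro i j s hij
    let S : Submodule ℝ (Fin n → ℝ) := LinearMap.ker
      ((LinearMap.proj i : (Fin n → ℝ) →ₗ[ℝ] ℝ) - s • LinearMap.proj j)
    have hS : S ≠ ⊤ := by
      intro hS
      have h1 : (Pi.single i 1 : Fin n → ℝ) ∈ S := by rw [hS]; trivial
      rw [LinearMap.mem_ker] at h1
      simp [Pi.single_apply, hij.symm] at h1
    have h0 := Measure.addHaar_submodule (volume : Measure (Fin n → ℝ)) S hS
    rw [ae_iff]
    refine measure_mono_null ?_ h0
    intro x hx
    simp only [ne_eq, not_not, mem_ofPred_eq] at hx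
    show x ∈ S
    rw [LinearMap.mem_ker]
    simp [hx]
  have h2 : ∀ i : Fin n, ∀ᵐ x : Fin n → ℝ, x i ≠ 0 := by
    intro i
    rw [ae_iff]
    refine measure_mono_null ?_ (Pool.Agent.R364.OP.null_const (n := n) i 0)
    intro x hx
    simpa using hx
  have h1' : ∀ᵐ x : Fin n → ℝ, ∀ i j : Fin n, i ≠ j → x i ≠ 1 * x j ∧ x i ≠ (-1) * x j := by
    rw [ae_all_iff]
    intro i
    rw [ae_all_iff]
    intro j
    by_cases hij : i = j
    · exact Eventually.of_forall fun x h => absurd hij h
    · filter_upwards [h1 i j 1 hij, h1 i j (-1) hij] with x hx hx' _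
      exact ⟨hx, hx'⟩
  have h2' : ∀ᵐ x : Fin n → ℝ, ∀ i, x i ≠ 0 := by
    rw [ae_all_iff]; exact h2
  filter_upwards [h1', h2'] with x hx hx'
  refine ⟨fun i j hij => ?_, hx'⟩
  by_contra hne
  have h3 := hx i j hne
  rcases abs_eq_abs.1 hij with h | h
  · exact h3.1 (by rw [h]; ring)
  · exact h3.2 (by rw [h]; ring)

open Classical in
/-- number of signed permutations in the cone -/
noncomputable def Lc (R : Fin n × Bool → Fin n × Bool → Prop) : ℕ :=
  (Finset.univ.filter fun q : Equiv.Perm (Fin n) × (Fin n → Bool) =>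
    act q (fun i => (i : ℝ) + 1) ∈ CB R).card

theorem cmp_sg {y r : Fin n → ℝ} (hy : StrictMono y) (hr : StrictMono r) (hy0 : ∀ i, 0 < y i)
    (hr0 : ∀ i, 0 < r i) (i j : Fin n) (s t : Bool) :
    sg s * y i ≤ sg t * y j ↔ sg s * r i ≤ sg t * r j := by
  have a1 := hy0 i
  have a2 := hy0 j
  have a3 := hr0 i
  have a4 := hr0 j
  cases s <;> cases t
  · simp only [sg, Bool.false_eq_true, if_false]
    constructor
    · intro h
      have := hy.le_iff_le.1 (by linarith : y j ≤ y i)
      have := hr.monotone this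
      linarith
    · intro h
      have := hr.le_iff_le.1 (by linarith : r j ≤ r i)
      have := hy.monotone this
      linarith
  · simp only [sg, Bool.false_eq_true, if_false, if_true]
    constructor <;> intro _ <;> linarith
  · simp only [sg, Bool.false_eq_true, if_false, if_true]
    constructor <;> intro h <;> linarith
  · simp only [sg, if_true]
    constructor
    · intro h
      have := hy.le_iff_le.1 (by linarith : y i ≤ y j)
      have := hr.monotone this
      linarith
    · intro h
      have := hr.le_iff_le.1 (by linarith : r i ≤ r j)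
      have := hy.monotone this
      linarith

open Classical in
theorem cntL (R : Fin n × Bool → Fin n × Bool → Prop) (x : Fin n → ℝ)
    (hx : Function.Injective fun i => |x i|) (hx0 : ∀ i, x i ≠ 0) :
    (Finset.univ.filter fun q : Equiv.Perm (Fin n) × (Fin n → Bool) => act q x ∈ CB R).card
      = Lc R := by
  unfold Lc
  set σ := Tuple.sort (fun i => |x i|) with hσ
  have hs : StrictMono (fun i => |x (σ i)|) :=
    (Tuple.monotone_sort (fun i => |x i|)).strictMono_of_injective
      (hx.comp σ.injective)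
  have hs0 : ∀ i, 0 < |x (σ i)| := fun i => abs_pos.2 (hx0 _)
  have hr : StrictMono fun i : Fin n => (i : ℝ) + 1 := by
    intro i j hij
    have : (i : ℕ) < j := hij
    have : ((i : ℕ) : ℝ) < ((j : ℕ) : ℝ) := by exact_mod_cast this
    simp only
    linarith
  have hr0 : ∀ i : Fin n, (0 : ℝ) < (i : ℝ) + 1 := fun i => by positivity
  -- sign of the coordinates
  let τ : Fin n → Bool := fun i => decide (0 < x i)
  have hτ : ∀ i, x i = sg (τ i) * |x i| := by
    intro i
    by_cases h : 0 < x i
    · simp [τ, sg, h, abs_of_pos h]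
    · have h' : x i ≤ 0 := not_lt.1 h
      simp [τ, sg, h, abs_of_nonpos h']
  -- the bijection
  let Θ : Equiv.Perm (Fin n) × (Fin n → Bool) → Equiv.Perm (Fin n) × (Fin n → Bool) :=
    fun q => (σ⁻¹ * q.1, fun i => !(xor (q.2 i) (τ (q.1 i))))
  have key : ∀ q i, act q x i = sg ((Θ q).2 i) * |x (σ ((Θ q).1 i))| := by
    intro q i
    simp only [act, Θ, Equiv.Perm.mul_apply]
    rw [← Equiv.Perm.mul_apply σ σ⁻¹, mul_inv_cancel, Equiv.Perm.one_apply]
    rw [← sg_mul_sg, mul_assoc, ← hτ]
  have hiff : ∀ q, act q x ∈ CB R ↔ act (Θ q) (fun i => (i : ℝ) + 1) ∈ CB R := by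
    intro q
    unfold CB
    simp only [mem_ofPred_eq]
    refine forall_congr' fun l => forall_congr' fun m => imp_congr_right fun _ => ?_
    unfold sv
    rw [key, key]
    simp only [act]
    rw [← mul_assoc, ← mul_assoc, ← mul_assoc, ← mul_assoc, sg_mul_sg, sg_mul_sg]
    exact cmp_sg hs hr hs0 hr0 _ _ _ _
  apply Finset.card_bij (fun q _ => Θ q)
  · intro q hq
    rw [Finset.mem_filter] at hq ⊢
    exact ⟨Finset.mem_univ _, (hiff q).1 hq.2⟩
  · intro q _ q' _ h
    have h1 : q.1 = q'.1 := mul_left_cancel (congrArg Prod.fst h)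
    have h2 := congrArg Prod.snd h
    refine Prod.ext h1 (funext fun i => ?_)
    have h3 := congrFun h2 i
    simp only [Θ, h1, Bool.not_eq_eq_eq_not, Bool.not_not] at h3
    revert h3
    cases q.2 i <;> cases q'.2 i <;> cases τ (q'.1 i) <;> simp
  · intro q hq
    rw [Finset.mem_filter] at hq
    have hΘ : Θ (σ * q.1, fun i => !(xor (q.2 i) (τ (σ (q.1 i))))) = q := by
      refine Prod.ext ?_ (funext fun i => ?_)
      · simp [Θ]
      · simp only [Θ, Equiv.Perm.mul_apply]
        cases q.2 i <;> cases τ (σ (q.1 i)) <;> simp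
    refine ⟨(σ * q.1, fun i => !(xor (q.2 i) (τ (σ (q.1 i))))), ?_, hΘ⟩
    rw [Finset.mem_filter]
    refine ⟨Finset.mem_univ _, (hiff _).2 ?_⟩
    rw [hΘ]
    exact hq.2

/-- **invariant functions** have proportional integrals over signed order cones -/
theorem symB (R : Fin n × Bool → Fin n × Bool → Prop) (G : (Fin n → ℝ) → ℝ)
    (hint : Integrable G)
    (hG : ∀ (q : Equiv.Perm (Fin n) × (Fin n → Bool)) (x : Fin n → ℝ), G (act q x) = G x) :
    (Fintype.card (Equiv.Perm (Fin n) × (Fin n → Bool)) : ℝ) * ∫ x in CB R, G x =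
      (Lc R : ℝ) * ∫ x, G x := by
  classical
  have hm := (isClosed_CB R).measurableSet
  have hI : Integrable ((CB R).indicator G) := hint.indicator hm
  have h1 : ∀ q : Equiv.Perm (Fin n) × (Fin n → Bool),
      Integrable (fun x : Fin n → ℝ => (CB R).indicator G (act q x)) := by
    intro q
    exact ((act_mp q).1.integrable_comp hI.1).2 hI
  calc (Fintype.card (Equiv.Perm (Fin n) × (Fin n → Bool)) : ℝ) * ∫ x in CB R, G x
      = ∑ _q : Equiv.Perm (Fin n) × (Fin n → Bool), ∫ x in CB R, G x := by
        rw [Finset.sum_const, Finset.card_univ, nsmul_eq_mul]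
    _ = ∑ q : Equiv.Perm (Fin n) × (Fin n → Bool),
        ∫ x : Fin n → ℝ, (CB R).indicator G (act q x) := by
        apply Finset.sum_congr rfl
        intro q _
        rw [(act_mp q).2, integral_indicator hm]
    _ = ∫ x : Fin n → ℝ, ∑ q : Equiv.Perm (Fin n) × (Fin n → Bool),
        (CB R).indicator G (act q x) := by
        rw [integral_finsetSum _ (fun q _ => h1 q)]
    _ = ∫ x : Fin n → ℝ, (Lc R : ℝ) * G x := by
        apply integral_congr_ae
        filter_upwards [genericB] with x hx
        have h2 : ∀ q : Equiv.Perm (Fin n) × (Fin n → Bool),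
            (CB R).indicator G (act q x) = if act q x ∈ CB R then G x else 0 := by
          intro q
          by_cases h : act q x ∈ CB R
          · rw [indicator_of_mem h, if_pos h, hG]
          · rw [indicator_of_notMem h, if_neg h]
        rw [Finset.sum_congr rfl (fun q _ => h2 q), ← Finset.sum_filter, Finset.sum_const,
          cntL R x hx.1 hx.2, nsmul_eq_mul]
    _ = (Lc R : ℝ) * ∫ x, G x := by
        rw [integral_const_mul]

end Pool.Agent.T2H73.SB
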