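import Pool.Agent.T2H73.SB.VarB
import Pool.Agent.R972.OP.Fin

/-!
# Signed order polytopes: a direction of large variance, isoperimetry
-/

set_option autoImplicit false

namespace Pool.Agent.T2H73.SB

open MeasureTheory Set Filter Topology
open scoped ENNReal InnerProductSpace
open Pool.Agent.W695.KH (Eu EV VV Sm)
open Pool.Agent.R972.OP (un vpos un_prob un_int un_integrable EV_mono EV_const EV_mul VV_mul
  var_eq)

variable {n : ℕ}

section gen

variable {K : Set (Eu (Fin n))}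

theorem EV_add (hc : IsCompact K) (f g : Eu (Fin n) → ℝ) (hf : Continuous f)
    (hg : Continuous g) : EV K (fun x => f x + g x) = EV K f + EV K g := by
  unfold EV
  rw [integral_add (hf.continuousOn.integrableOn_compact hc)
    (hg.continuousOn.integrableOn_compact hc), add_div]

theorem EV_sum (hc : IsCompact K) (f : Fin n → Eu (Fin n) → ℝ) (hf : ∀ i, Continuous (f i)) :
    EV K (fun x => ∑ i, f i x) = ∑ i, EV K (f i) := by
  unfold EV
  rw [integral_finsetSum _ fun i _ => (hf i).continuousOn.integrableOn_compact hc,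
    Finset.sum_div]

theorem VV_nonneg (hc : IsCompact K) (hv : 0 < volume K) (f : Eu (Fin n) → ℝ)
    (hf : Continuous f) : 0 ≤ VV K f := by
  rw [← var_eq hc hv f hf]
  exact ProbabilityTheory.variance_nonneg _ _

theorem VV_add_le (hc : IsCompact K) (hv : 0 < volume K) (f g : Eu (Fin n) → ℝ)
    (hf : Continuous f) (hg : Continuous g) :
    VV K (fun x => f x + g x) ≤ 2 * VV K f + 2 * VV K g := by
  have h1 := VV_nonneg hc hv (fun x => f x + (-1) * g x) (hf.add (continuous_const.mul hg))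
  have e1 := EV_add hc f g hf hg
  have e2 : EV K (fun x => f x + (-1) * g x) = EV K f - EV K g := by
    rw [EV_add hc f (fun x => (-1) * g x) hf (continuous_const.mul hg), EV_mul]
    ring
  have e3 : EV K (fun x => (f x + g x) ^ 2) =
      EV K (fun x => f x ^ 2) + EV K (fun x => g x ^ 2) + 2 * EV K (fun x => f x * g x) := by
    have : (fun x => (f x + g x) ^ 2) = fun x => (f x ^ 2 + g x ^ 2) + 2 * (f x * g x) := by
      funext x; ring
    rw [this, EV_add hc (fun x => f x ^ 2 + g x ^ 2) (fun x => 2 * (f x * g x))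
      (by fun_prop) (by fun_prop), EV_add hc (fun x => f x ^ 2) (fun x => g x ^ 2)
      (by fun_prop) (by fun_prop), EV_mul]
  have e4 : EV K (fun x => (f x + (-1) * g x) ^ 2) =
      EV K (fun x => f x ^ 2) + EV K (fun x => g x ^ 2) + (-2) * EV K (fun x => f x * g x) := by
    have : (fun x => (f x + (-1) * g x) ^ 2) =
        fun x => (f x ^ 2 + g x ^ 2) + (-2) * (f x * g x) := by
      funext x; ring
    rw [this, EV_add hc (fun x => f x ^ 2 + g x ^ 2) (fun x => -2 * (f x * g x))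
      (by fun_prop) (by fun_prop), EV_add hc (fun x => f x ^ 2) (fun x => g x ^ 2)
      (by fun_prop) (by fun_prop), EV_mul]
  unfold VV at h1 ⊢
  rw [e2, e4] at h1
  rw [e1, e3]
  nlinarith

theorem VV_add_const (hc : IsCompact K) (hv : 0 < volume K) (f : Eu (Fin n) → ℝ)
    (hf : Continuous f) (r : ℝ) : VV K (fun x => f x + r) = VV K f := by
  have e1 : EV K (fun x => f x + r) = EV K f + r := by
    rw [EV_add hc f (fun _ => r) hf continuous_const, EV_const hc hv]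
  have e2 : EV K (fun x => (f x + r) ^ 2) = EV K (fun x => f x ^ 2) + 2 * r * EV K f + r ^ 2 := by
    have : (fun x => (f x + r) ^ 2) = fun x => (f x ^ 2 + 2 * r * f x) + r ^ 2 := by
      funext x; ring
    rw [this, EV_add hc (fun x => f x ^ 2 + 2 * r * f x) (fun _ => r ^ 2) (by fun_prop)
      continuous_const, EV_add hc (fun x => f x ^ 2) (fun x => 2 * r * f x) (by fun_prop)
      (by fun_prop), EV_mul, EV_const hc hv]
  unfold VV
  rw [e1, e2]
  ring

theorem VV_inner_le {ε : ℝ} (hε : ∀ θ : Eu (Fin n), ‖θ‖ = 1 →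
    VV K (fun x => ⟪x, θ⟫_ℝ) ≤ ε) (_hε0 : 0 ≤ ε) (w : Eu (Fin n)) :
    VV K (fun x => ⟪x, w⟫_ℝ) ≤ ‖w‖ ^ 2 * ε := by
  by_cases hw : w = 0
  · subst hw
    have : (fun x : Eu (Fin n) => ⟪x, (0 : Eu (Fin n))⟫_ℝ) = fun _ => 0 := by
      funext x; simp
    rw [this]
    have : VV K (fun _ => (0 : ℝ)) = 0 := by
      unfold VV EV
      simp
    rw [this]
    simp
  · have hw0 : ‖w‖ ≠ 0 := norm_ne_zero_iff.2 hw
    have h1 := hε (‖w‖⁻¹ • w) (by
      rw [norm_smul, norm_inv, norm_norm, inv_mul_cancel₀ hw0])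
    have e : (fun x : Eu (Fin n) => ⟪x, w⟫_ℝ) = fun x => ‖w‖ * ⟪x, ‖w‖⁻¹ • w⟫_ℝ := by
      funext x
      rw [real_inner_smul_right, ← mul_assoc, mul_inv_cancel₀ hw0, one_mul]
    rw [e, VV_mul]
    exact mul_le_mul_of_nonneg_left h1 (sq_nonneg _)

/-- the mean -/
noncomputable def mn (K : Set (Eu (Fin n))) : Eu (Fin n) := WithLp.toLp 2 fun i => EV K fun x => x i

theorem cont_i (i : Fin n) : Continuous fun x : Eu (Fin n) => x i := by fun_prop

theorem norm_sub_sq (x y : Eu (Fin n)) : ‖x - y‖ ^ 2 = ∑ i, (x i - y i) ^ 2 := by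
  rw [EuclideanSpace.norm_sq_eq]
  refine Finset.sum_congr rfl fun i _ => ?_
  rw [Real.norm_eq_abs, sq_abs]
  rfl

theorem EV_dist (hc : IsCompact K) (hv : 0 < volume K) :
    EV K (fun x => ‖x - mn K‖ ^ 2) = ∑ i, VV K fun x => x i := by
  have e : (fun x : Eu (Fin n) => ‖x - mn K‖ ^ 2) =
      fun x => ∑ i, (x i - EV K fun x => x i) ^ 2 := by
    funext x
    rw [norm_sub_sq]
    rfl
  rw [e, EV_sum hc _ (fun i => by fun_prop)]
  refine Finset.sum_congr rfl fun i _ => ?_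
  obtain ⟨r, hr⟩ : ∃ r, r = EV K fun x => x i := ⟨_, rfl⟩
  rw [← hr]
  have e2 : (fun x : Eu (Fin n) => (x i - r) ^ 2) =
      fun x => (x i ^ 2 + (-2 * r) * x i) + r ^ 2 := by
    funext x; ring
  rw [e2, EV_add hc _ _ (by fun_prop) continuous_const, EV_add hc _ _ (by fun_prop) (by fun_prop),
    EV_mul, EV_const hc hv, ← hr]
  unfold VV
  rw [← hr]
  ring

/-- if the squared distance to the centre has a large variance, some direction has -/
theorem dir_of (hc : IsCompact K) (hv : 0 < volume K) (hn : 1 ≤ n)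
    (hcube : ∀ x ∈ K, ∀ i, 0 ≤ x i ∧ x i ≤ 1)
    (hP : ∀ f : Eu (Fin n) → ℝ, ContDiff ℝ 1 f →
      VV K f ≤ 1 / Real.pi ^ 2 * EV K fun x => ‖fderiv ℝ f x‖ ^ 2)
    (hD : VV K (fun x => ∑ i, (x i - 1 / 2) ^ 2) = (n : ℝ) / 180) {ε : ℝ}
    (hε : ∀ θ : Eu (Fin n), ‖θ‖ = 1 → VV K (fun x => ⟪x, θ⟫_ℝ) ≤ ε) : 1 / 507 ≤ ε := by
  have hn0 : (0 : ℝ) < n := by exact_mod_cast hn
  obtain ⟨m, hm⟩ : ∃ m, m = mn K := ⟨_, rfl⟩
  obtain ⟨z, hz⟩ : ∃ z : Eu (Fin n), z = WithLp.toLp 2 fun _ => (1 / 2 : ℝ) := ⟨_, rfl⟩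
  have hzi : ∀ i, z i = 1 / 2 := fun i => by rw [hz]
  have hmi : ∀ i, m i = EV K fun x => x i := fun i => by rw [hm]; rfl
  -- single coordinates
  have hcoord : ∀ i : Fin n, (fun x : Eu (Fin n) => x i) =
      fun x => ⟪x, EuclideanSpace.single i (1 : ℝ)⟫_ℝ := by
    intro i
    funext x
    rw [EuclideanSpace.inner_single_right]
    simp
  have hV1 : ∀ i : Fin n, VV K (fun x => x i) ≤ ε := by
    intro i
    rw [hcoord i]
    exact hε _ (by simp)
  have hε0 : 0 ≤ ε := (VV_nonneg hc hv _ (cont_i (⟨0, hn⟩ : Fin n))).trans (hV1 _)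
  -- the decomposition
  have hdec : (fun x : Eu (Fin n) => ∑ i, (x i - 1 / 2) ^ 2) =
      fun x => (‖x - m‖ ^ 2 + 2 * ⟪x, m - z⟫_ℝ) + (-2 * ⟪m, m - z⟫_ℝ + ‖m - z‖ ^ 2) := by
    funext x
    have h1 : ∑ i, (x i - 1 / 2) ^ 2 = ‖x - z‖ ^ 2 := by
      rw [norm_sub_sq]
      simp only [hzi]
    rw [h1]
    have h2 : x - z = (x - m) + (m - z) := by abel
    rw [h2, norm_add_sq_real, inner_sub_left]
    ring
  have hcA : Continuous fun x : Eu (Fin n) => ‖x - m‖ ^ 2 := by fun_prop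
  have hcB : Continuous fun x : Eu (Fin n) => 2 * ⟪x, m - z⟫_ℝ := by fun_prop
  have hle : (n : ℝ) / 180 ≤ 2 * VV K (fun x => ‖x - m‖ ^ 2) +
      2 * VV K (fun x => 2 * ⟪x, m - z⟫_ℝ) := by
    rw [← hD, hdec, VV_add_const hc hv (fun x => ‖x - m‖ ^ 2 + 2 * ⟪x, m - z⟫_ℝ) (by fun_prop)]
    exact VV_add_le hc hv _ _ hcA hcB
  -- the quadratic part
  have hA : VV K (fun x => ‖x - m‖ ^ 2) ≤ 1 / Real.pi ^ 2 * (4 * (n * ε)) := by
    refine (hP (fun x => ‖x - m‖ ^ 2) ((contDiff_id.sub contDiff_const).norm_sq ℝ)).trans ?_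
    refine mul_le_mul_of_nonneg_left ?_ (by positivity)
    have hfd : (fun x : Eu (Fin n) => ‖fderiv ℝ (fun x : Eu (Fin n) => ‖x - m‖ ^ 2) x‖ ^ 2) =
        fun x => 4 * ‖x - m‖ ^ 2 := by
      funext x
      have h1 : HasFDerivAt (fun x : Eu (Fin n) => ‖x - m‖ ^ 2)
          (2 • (innerSL ℝ (x - m)).comp (ContinuousLinearMap.id ℝ (Eu (Fin n)))) x :=
        ((hasFDerivAt_id x).sub_const m).norm_sq
      rw [h1.fderiv, ContinuousLinearMap.comp_id, two_nsmul, ← two_smul ℝ (innerSL ℝ (x - m)),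
        norm_smul, innerSL_apply_norm]
      norm_num
      ring
    rw [hfd, EV_mul]
    refine mul_le_mul_of_nonneg_left ?_ (by norm_num)
    rw [hm, EV_dist hc hv]
    calc ∑ i, VV K (fun x => x i) ≤ ∑ _i : Fin n, ε := Finset.sum_le_sum fun i _ => hV1 i
      _ = n * ε := by simp
  -- the linear part
  have hmz : ‖m - z‖ ^ 2 ≤ n / 4 := by
    rw [norm_sub_sq]
    calc ∑ i, (m i - z i) ^ 2 ≤ ∑ _i : Fin n, (1 / 4 : ℝ) := by
          refine Finset.sum_le_sum fun i _ => ?_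
          rw [hzi, hmi]
          have h0 : 0 ≤ EV K fun x => x i := by
            have := EV_mono hc hv (fun _ => 0) (fun x => x i) continuous_const (cont_i i)
              (fun x hx => (hcube x hx i).1)
            rwa [EV_const hc hv] at this
          have h1 : EV K (fun x => x i) ≤ 1 := by
            have := EV_mono hc hv (fun x => x i) (fun _ => 1) (cont_i i) continuous_const
              (fun x hx => (hcube x hx i).2)
            rwa [EV_const hc hv] at this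
          nlinarith
      _ = n / 4 := by simp; ring
  have hB : VV K (fun x => 2 * ⟪x, m - z⟫_ℝ) ≤ n * ε := by
    rw [VV_mul]
    have h1 := VV_inner_le hε hε0 (m - z)
    have h2 : ‖m - z‖ ^ 2 * ε ≤ n / 4 * ε := mul_le_mul_of_nonneg_right hmz hε0
    nlinarith
  have hpi : (3.14 : ℝ) < Real.pi := Real.pi_gt_d2
  have hp2 : 1 / Real.pi ^ 2 ≤ 1 / 9.85 := by
    apply one_div_le_one_div_of_le (by norm_num)
    nlinarith
  have hA' : VV K (fun x => ‖x - m‖ ^ 2) ≤ 1 / 9.85 * (4 * (n * ε)) :=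
    hA.trans (mul_le_mul_of_nonneg_right hp2 (by positivity))
  have h3 : (n : ℝ) / 180 ≤ n * (2.8122 * ε) := by
    have h4 : 2 * (1 / 9.85 * (4 * ((n : ℝ) * ε))) + 2 * (n * ε) ≤ n * (2.8122 * ε) := by
      have : (0 : ℝ) ≤ n * ε := by positivity
      nlinarith
    linarith
  have h5 : (1 : ℝ) / 180 ≤ 2.8122 * ε := by
    have h6 : (n : ℝ) * (1 / 180) ≤ n * (2.8122 * ε) := by linarith
    exact le_of_mul_le_mul_left h6 hn0
  linarith

/-- from Cheeger's inequality and a direction of large variance to the inequality for the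
halfspace constant -/
theorem half_of {C : ℝ} (hC : 0 < C) (HH : ∀ (κ : Type) [Fintype κ] (D : Set (Eu κ)), IsCompact D →
    Convex ℝ D → (interior D).Nonempty → ∀ μ : Measure (Eu κ),
    μ = (volume D)⁻¹ • volume.restrict D → ∀ (θ : Eu κ) (t : ℝ≥0∞), ‖θ‖ = 1 →
    (∀ b : ℝ, t * min (μ {x | ⟪θ, x⟫_ℝ ≤ b}) (1 - μ {x | ⟪θ, x⟫_ℝ ≤ b}) ≤
      liminf (fun ε : ℝ => (μ (Metric.thickening ε {x | ⟪θ, x⟫_ℝ ≤ b}) -
        μ {x | ⟪θ, x⟫_ℝ ≤ b}) / ENNReal.ofReal ε) (𝓝[>] 0)) →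
    ∃ m : ℝ, t ^ 2 * ∫⁻ x, ENNReal.ofReal ((⟪θ, x⟫_ℝ - m) ^ 2) ∂μ ≤ ENNReal.ofReal C)
    (hc : IsCompact K) (hco : Convex ℝ K) (hi : (interior K).Nonempty) {v0 : ℝ} (hv0 : 0 < v0)
    (hlow : ∀ ε : ℝ, (∀ θ : Eu (Fin n), ‖θ‖ = 1 → VV K (fun x => ⟪x, θ⟫_ℝ) ≤ ε) → v0 ≤ ε)
    {a : ℝ} (ha : 0 < a) (t : ℝ≥0∞)
    (ht : ∀ (θ : Eu (Fin n)) (b : ℝ), ‖θ‖ = 1 →
      t * min (un K {x | ⟪θ, x⟫_ℝ ≤ b}) (1 - un K {x | ⟪θ, x⟫_ℝ ≤ b}) ≤
      liminf (fun ε : ℝ => (un K (Metric.thickening ε {x | ⟪θ, x⟫_ℝ ≤ b}) -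
        un K {x | ⟪θ, x⟫_ℝ ≤ b}) / ENNReal.ofReal ε) (𝓝[>] 0)) :
    ENNReal.ofReal (a / Real.sqrt (2 * C / v0)) * t ≤ ENNReal.ofReal a := by
  have hv := vpos hi
  have hprob := un_prob hc hv
  -- a direction of large variance
  obtain ⟨θ, hθ, hθv⟩ : ∃ θ : Eu (Fin n), ‖θ‖ = 1 ∧ v0 / 2 < VV K (fun x => ⟪x, θ⟫_ℝ) := by
    by_contra hcon
    push Not at hcon
    have := hlow (v0 / 2) hcon
    linarith
  obtain ⟨m, hm⟩ := HH (Fin n) K hc hco hi (un K) rfl θ t hθ (fun b => ht θ b hθ)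
  have hcont : Continuous fun x : Eu (Fin n) => (⟪θ, x⟫_ℝ - m) ^ 2 := by fun_prop
  rw [← ofReal_integral_eq_lintegral_ofReal (un_integrable hc hv _ hcont)
    (Eventually.of_forall fun x => sq_nonneg _)] at hm
  have h3 : v0 / 2 ≤ ∫ x, (⟪θ, x⟫_ℝ - m) ^ 2 ∂(un K) := by
    have h4 : ProbabilityTheory.variance (fun x => ⟪x, θ⟫_ℝ - m) (un K) =
        ProbabilityTheory.variance (fun x => ⟪x, θ⟫_ℝ) (un K) :=
      ProbabilityTheory.variance_sub_const (by fun_prop) m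
    refine hθv.le.trans ?_
    rw [← var_eq hc hv _ (by fun_prop), ← h4]
    refine (ProbabilityTheory.variance_le_expectation_sq (by fun_prop)).trans (le_of_eq ?_)
    refine integral_congr_ae (Eventually.of_forall fun x => ?_)
    simp only [Pi.pow_apply]
    rw [real_inner_comm]
  have h5 : t ^ 2 * ENNReal.ofReal (v0 / 2) ≤ ENNReal.ofReal C :=
    (mul_le_mul_right (ENNReal.ofReal_le_ofReal h3) _).trans hm
  have ht2 : t ^ 2 ≤ ENNReal.ofReal (2 * C / v0) := by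
    have e : ENNReal.ofReal (2 * C / v0) = ENNReal.ofReal C * ENNReal.ofReal (2 / v0) := by
      rw [← ENNReal.ofReal_mul hC.le]
      congr 1
      ring
    rw [e]
    calc t ^ 2 = t ^ 2 * ENNReal.ofReal (v0 / 2) * ENNReal.ofReal (2 / v0) := by
          rw [mul_assoc, ← ENNReal.ofReal_mul (by positivity)]
          have : v0 / 2 * (2 / v0) = 1 := by field_simp
          rw [this, ENNReal.ofReal_one, mul_one]
      _ ≤ _ := mul_le_mul_left h5 _
  have ht3 : t ≤ ENNReal.ofReal (Real.sqrt (2 * C / v0)) := by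
    have e : ENNReal.ofReal (2 * C / v0) = ENNReal.ofReal (Real.sqrt (2 * C / v0)) ^ 2 := by
      rw [← ENNReal.ofReal_pow (Real.sqrt_nonneg _), Real.sq_sqrt (by positivity)]
    rw [e] at ht2
    exact (ENNReal.pow_le_pow_left_iff two_ne_zero).1 ht2
  calc _ ≤ ENNReal.ofReal (a / Real.sqrt (2 * C / v0)) *
        ENNReal.ofReal (Real.sqrt (2 * C / v0)) := mul_le_mul_right ht3 _
    _ = ENNReal.ofReal a := by
        have h0 : 0 < Real.sqrt (2 * C / v0) := by positivity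
        rw [← ENNReal.ofReal_mul (by positivity), div_mul_cancel₀ _ h0.ne']

end gen

/-! ### signed order polytopes -/

/-- **Cheeger's inequality**, all measurable sets -/
theorem setsB (R : Fin n × Bool → Fin n × Bool → Prop) (hi : (interior (OEB R)).Nonempty)
    (S : Set (Eu (Fin n))) (hS : MeasurableSet S) :
    ENNReal.ofReal (Real.pi / 8) * min (un (OEB R) S) (1 - un (OEB R) S) ≤
      liminf (fun ε : ℝ =>
        (un (OEB R) (Metric.thickening ε S) - un (OEB R) S) / ENNReal.ofReal ε) (𝓝[>] 0) := by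
  have hv := vpos hi
  have hprob := un_prob (compactB R) hv
  have hpi : 0 < Real.pi := Real.pi_pos
  have key := allB R hv (un (OEB R)) rfl S hS
  obtain ⟨I, hI⟩ : ∃ I : ℝ≥0∞, I = liminf (fun ε : ℝ =>
    (un (OEB R) (Metric.thickening ε S) - un (OEB R) S) / ENNReal.ofReal ε) (𝓝[>] 0) := ⟨_, rfl⟩
  rw [← hI] at key ⊢
  obtain ⟨a, ha⟩ : ∃ a : ℝ≥0∞, a = un (OEB R) S := ⟨_, rfl⟩
  rw [← ha] at key ⊢
  have ha1 : a ≤ 1 := by rw [ha]; exact prob_le_one
  have hadd : a + (1 - a) = 1 := add_tsub_cancel_of_le ha1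
  have hmin : min a (1 - a) ≤ 2 * (a * (1 - a)) := by
    rcases le_total a (1 - a) with h1 | h1
    · have h2 : 1 ≤ 2 * (1 - a) := by
        calc (1 : ℝ≥0∞) = a + (1 - a) := hadd.symm
          _ ≤ (1 - a) + (1 - a) := by gcongr
          _ = 2 * (1 - a) := (two_mul _).symm
      calc min a (1 - a) ≤ a * 1 := by rw [mul_one]; exact min_le_left _ _
        _ ≤ a * (2 * (1 - a)) := by gcongr
        _ = _ := by ring
    · have h2 : 1 ≤ 2 * a := by
        calc (1 : ℝ≥0∞) = a + (1 - a) := hadd.symm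
          _ ≤ a + a := by gcongr
          _ = 2 * a := (two_mul _).symm
      calc min a (1 - a) ≤ 1 * (1 - a) := by rw [one_mul]; exact min_le_right _ _
        _ ≤ 2 * a * (1 - a) := by gcongr
        _ = _ := by ring
  calc ENNReal.ofReal (Real.pi / 8) * min a (1 - a)
      ≤ ENNReal.ofReal (Real.pi / 8) * (2 * (a * (1 - a))) := by gcongr
    _ ≤ ENNReal.ofReal (Real.pi / 8) * (2 * (ENNReal.ofReal (4 / Real.pi) * I)) := by gcongr
    _ = (ENNReal.ofReal (Real.pi / 8) * ENNReal.ofReal 2 * ENNReal.ofReal (4 / Real.pi)) * I := by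
        rw [ENNReal.ofReal_ofNat]
        ring
    _ = I := by
        rw [← ENNReal.ofReal_mul (by positivity), ← ENNReal.ofReal_mul (by positivity)]
        have : Real.pi / 8 * 2 * (4 / Real.pi) = 1 := by
          field_simp
          norm_num
        rw [this, ENNReal.ofReal_one, one_mul]

theorem dirB (R : Fin n × Bool → Fin n × Bool → Prop) (hn : 1 ≤ n)
    (hi : (interior (OEB R)).Nonempty) (ε : ℝ)
    (hε : ∀ θ : Eu (Fin n), ‖θ‖ = 1 → VV (OEB R) (fun x => ⟪x, θ⟫_ℝ) ≤ ε) : 1 / 507 ≤ ε :=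
  dir_of (compactB R) (vpos hi) hn (fun x hx => hx.1) (fun f hf => pobeB R f hf)
    (vsB R (vpos hi)).2 hε

/-- **KLS for signed order polytopes**, halfspace form -/
theorem klsB : ∃ c : ℝ, 0 < c ∧ ∀ (n : ℕ) (R : Fin n × Bool → Fin n × Bool → Prop), 1 ≤ n →
    (interior (OEB R)).Nonempty → ∀ t : ℝ≥0∞,
    (∀ (θ : Eu (Fin n)) (b : ℝ), ‖θ‖ = 1 →
      t * min (un (OEB R) {x | ⟪θ, x⟫_ℝ ≤ b}) (1 - un (OEB R) {x | ⟪θ, x⟫_ℝ ≤ b}) ≤
      liminf (fun ε : ℝ => (un (OEB R) (Metric.thickening ε {x | ⟪θ, x⟫_ℝ ≤ b}) -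
        un (OEB R) {x | ⟪θ, x⟫_ℝ ≤ b}) / ENNReal.ofReal ε) (𝓝[>] 0)) →
    ∀ S : Set (Eu (Fin n)), MeasurableSet S →
      ENNReal.ofReal c * t * min (un (OEB R) S) (1 - un (OEB R) S) ≤
      liminf (fun ε : ℝ =>
        (un (OEB R) (Metric.thickening ε S) - un (OEB R) S) / ENNReal.ofReal ε) (𝓝[>] 0) := by
  obtain ⟨C, hC, HH⟩ := Pool.Agent.Y211.FF.half
  have hpi : 0 < Real.pi := Real.pi_pos
  refine ⟨Real.pi / 8 / Real.sqrt (2 * C / (1 / 507)), by positivity, ?_⟩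
  intro n R hn hi t ht S hS
  refine le_trans ?_ (setsB R hi S hS)
  refine mul_le_mul' ?_ le_rfl
  exact half_of hC HH (compactB R) (convexB R) hi (by norm_num) (dirB R hn hi) (by positivity) t ht

end Pool.Agent.T2H73.SB
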