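import Pool.Agent.T2H73.SB.Pt

/-!
# Signed order polytopes: eigenvalues, connectivity, the lattice inequality
-/

set_option autoImplicit false

namespace Pool.Agent.T2H73.SB

open Finset

theorem W_ltB {N : ℕ} {W c : ℕ → ℝ} (h : WO N W c) {i j : ℕ} (hij : i < j) (hj : j < 2 * N) :
    W i < W j := by
  obtain ⟨d, rfl⟩ : ∃ d, j = i + d + 1 := ⟨j - i - 1, by omega⟩
  clear hij
  induction d with
  | zero => exact h.mono i hj
  | succ d ih => exact (ih (by omega)).trans (h.mono (i + d + 1) hj)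

theorem sumW1 {N : ℕ} {W c : ℕ → ℝ} (h : WO N W c) {x : ℕ} (hx : x < N) :
    ∑ k ∈ range N, c k * (W (rf N k (k + 1) x) - W x) = -W x := by
  have key : ∀ k ∈ range N, c k * (W (rf N k (k + 1) x) - W x) =
      (if k = x then c x * (W (x + 1) - W x) else 0) -
      (if k + 1 = x then c (x - 1) * (W x - W (x - 1)) else 0) := by
    intro k hk
    have hk' := mem_range.1 hk
    obtain ⟨D1, D2, D3⟩ := Dval h hk' (x := x) (by omega)
    by_cases h1 : k = x
    · rw [if_pos h1, if_neg (by omega), D1 (Or.inl h1.symm), h1, sub_zero]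
    · by_cases h2 : k + 1 = x
      · rw [if_neg h1, if_pos h2, D2 (Or.inl h2.symm)]
        subst h2
        rw [Nat.add_sub_cancel]
        ring
      · rw [if_neg h1, if_neg h2, D3 (by unfold Lo; omega) (by unfold Up; omega)]
        ring
  rw [sum_congr rfl key, sum_sub_distrib, sum_ite_eq', if_pos (mem_range.2 hx), ← h.eq x hx]
  congr 1
  by_cases h0 : 0 < x
  · rw [if_pos h0]
    obtain ⟨y, rfl⟩ : ∃ y, x = y + 1 := ⟨x - 1, by omega⟩
    simp only [Nat.add_right_cancel_iff]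
    rw [sum_ite_eq', if_pos (mem_range.2 (by omega))]
  · rw [if_neg h0]
    apply sum_eq_zero
    intro k _
    rw [if_neg (by omega)]

theorem sumW {N : ℕ} {W c : ℕ → ℝ} (h : WO N W c) {x : ℕ} (hx : x < 2 * N) :
    ∑ k ∈ range N, c k * (W (rf N k (k + 1) x) - W x) = -W x := by
  rcases Nat.lt_or_ge x N with hxN | hxN
  · exact sumW1 h hxN
  · have e := sumW1 h (x := 2 * N - 1 - x) (by omega)
    have hWx := h.odd x hx
    have key : ∀ k ∈ range N, c k * (W (rf N k (k + 1) (2 * N - 1 - x)) - W (2 * N - 1 - x)) =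
        -(c k * (W (rf N k (k + 1) x) - W x)) := by
      intro k hk
      have hk' := mem_range.1 hk
      rw [rf_mir (by omega) (by omega) (by omega) hx, h.odd _ (rf_lt (by omega) (by omega) hx), hWx]
      ring
    rw [sum_congr rfl key, sum_neg_distrib, hWx] at e
    linarith

theorem conB (h : S_PTB) : S_CONB := by
  classical
  intro n N R W c lam F hW heig hne
  set T : Finset ((Fin n → ℕ) × ℕ × ℕ) :=
    (cfgB N R ×ˢ (range (2 * N) ×ˢ range (2 * N))).filter
    fun x => x.2.1 < x.2.2 ∧ mb N x.2.1 x.2.2 x.1 ∈ cfgB N R with hT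
  have memT : ∀ g i j, (g, i, j) ∈ T ↔
      g ∈ cfgB N R ∧ i < j ∧ j < 2 * N ∧ mb N i j g ∈ cfgB N R := by
    intro g i j
    simp only [hT, mem_filter, mem_product, mem_range]
    constructor
    · rintro ⟨⟨h1, h2, h3⟩, h4, h5⟩
      exact ⟨h1, h4, h3, h5⟩
    · rintro ⟨h1, h2, h3, h4⟩
      exact ⟨⟨h1, h2.trans h3, h3⟩, h2, h4⟩
  obtain ⟨g0, hg0, k0, hk0, hm0, hF0⟩ := hne
  have h0T : (g0, k0, k0 + 1) ∈ T := (memT _ _ _).2 ⟨hg0, by omega, by omega, hm0⟩
  obtain ⟨⟨s0, i, j⟩, hsT, hmax⟩ := exists_max_image T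
    (fun x => |F (mb N x.2.1 x.2.2 x.1) - F x.1| / (W x.2.2 - W x.2.1)) ⟨_, h0T⟩
  obtain ⟨hs0, hij, hj, ht0⟩ := (memT _ _ _).1 hsT
  set M : ℝ := |F (mb N i j s0) - F s0| / (W j - W i) with hM
  have hWij : 0 < W j - W i := sub_pos.2 (W_ltB hW hij hj)
  have hMpos : 0 < M := by
    have h1 := hmax _ h0T
    have h2 : 0 < |F (mb N k0 (k0 + 1) g0) - F g0| / (W (k0 + 1) - W k0) :=
      div_pos (abs_pos.2 (sub_ne_zero.2 hF0)) (sub_pos.2 (hW.mono _ (by omega)))
    exact lt_of_lt_of_le h2 h1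
  have hLip : ∀ g ∈ cfgB N R, ∀ i j, i < j → j < 2 * N → mb N i j g ∈ cfgB N R →
      |F (mb N i j g) - F g| ≤ M * (W j - W i) := by
    intro g hg i' j' hij' hj' hm'
    have h1 := hmax _ ((memT g i' j').2 ⟨hg, hij', hj', hm'⟩)
    have hpos : 0 < W j' - W i' := sub_pos.2 (W_ltB hW hij' hj')
    exact (div_le_iff₀ hpos).1 h1
  have hD0 : |F (mb N i j s0) - F s0| = M * (W j - W i) := by
    rw [hM, div_mul_cancel₀ _ hWij.ne']
  obtain ⟨s, hs, ht, hD⟩ : ∃ s ∈ cfgB N R, mb N i j s ∈ cfgB N R ∧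
      F (mb N i j s) - F s = M * (W j - W i) := by
    rcases le_total 0 (F (mb N i j s0) - F s0) with hc | hc
    · exact ⟨s0, hs0, ht0, by rw [← hD0, abs_of_nonneg hc]⟩
    · have hmm : mb N i j (mb N i j s0) = s0 :=
        mb_mb (mem_cfgB.1 hs0).1 (hij.trans hj) hj
      refine ⟨mb N i j s0, ht0, by rwa [hmm], ?_⟩
      rw [hmm, ← hD0, abs_of_nonpos hc]
      ring
  have hsum : LLB N R c F (mb N i j s) - LLB N R c F s ≤ M * (-W j - -W i) := by
    rw [← sumW hW hj, ← sumW hW (hij.trans hj), ← sum_sub_distrib, mul_sum]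
    unfold LLB
    rw [← sum_sub_distrib]
    refine sum_le_sum fun k hk => ?_
    have := h n N R W c F M hW hMpos.le hLip s hs i j hij hj ht hD k (mem_range.1 hk)
    rw [← mul_sub]
    exact this
  rw [heig _ ht, heig _ hs] at hsum
  have hDpos : 0 < M * (W j - W i) := mul_pos hMpos hWij
  have h3 : -lam * (M * (W j - W i)) ≤ -1 * (M * (W j - W i)) := by
    have h4 : -lam * (M * (W j - W i)) = -lam * F (mb N i j s) - -lam * F s := by
      rw [← hD]; ring
    rw [h4]
    have h5 : M * (-W j - -W i) = -1 * (M * (W j - W i)) := by ring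
    rw [← h5]
    exact hsum
  nlinarith [le_of_mul_le_mul_right h3 hDpos]

/-! ### connectivity -/

theorem lv_ng {n N : ℕ} {g : Fin n → ℕ} (hg : ∀ a, g a < 2 * N) (l : Fin n × Bool) :
    lv N g (ng l) = 2 * N - 1 - lv N g l := by
  have := hg l.1
  unfold lv ng
  cases l.2 <;> simp <;> omega

theorem ng_ng {n : ℕ} (l : Fin n × Bool) : ng (ng l) = l := by
  unfold ng; simp

theorem up_ok {n N : ℕ} {R : Fin n × Bool → Fin n × Bool → Prop} {g h : Fin n → ℕ}
    (hg : g ∈ cfgB N R) (hh : h ∈ cfgB N R) {l : Fin n × Bool} (hl : lv N g l < lv N h l)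
    (hmax : ∀ m, lv N g m < lv N h m → lv N g m ≤ lv N g l) {k : ℕ} (hk : k < N)
    (hkl : k = lv N g l ∨ k + 2 + lv N g l = 2 * N) : mb N k (k + 1) g ∈ cfgB N R := by
  have hgc := mem_cfgB.1 hg
  have hhc := mem_cfgB.1 hh
  rw [mb_mem_iff hg hk]
  have b0 := lv_lt hhc.1 l
  have key : ∀ m, lv N g m = lv N g l + 1 → lv N h m ≤ lv N h l := by
    intro m hm
    by_contra hcon
    have := hmax m (by omega)
    omega
  have c1 : ∀ l' m', R l' m' → ¬ (lv N g l' = lv N g l ∧ lv N g m' = lv N g l + 1) := by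
    rintro l' m' hR ⟨h1, h2⟩
    have e1 : l' = l := hgc.2.1 h1
    have e2 := key m' h2
    have e3 := hhc.2.2 l' m' hR
    rw [e1] at e3
    omega
  have c2 : ∀ l' m', R l' m' → ¬ (lv N g l' + lv N g l + 2 = 2 * N ∧
      lv N g m' + lv N g l + 1 = 2 * N) := by
    rintro l' m' hR ⟨h1, h2⟩
    have e0 := lv_ng hgc.1 m'
    have e0' := lv_ng hgc.1 l'
    have e1 : ng m' = l := hgc.2.1 (by omega)
    have e2 := key (ng l') (by omega)
    have e3 := hhc.2.2 l' m' hR
    have e4 := lv_ng hhc.1 m'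
    have e5 := lv_ng hhc.1 l'
    have e6 := lv_lt hhc.1 l'
    have e7 := lv_lt hhc.1 m'
    rw [e1] at e4
    omega
  intro l' m' hR hcon
  have d1 := c1 l' m' hR
  have d2 := c2 l' m' hR
  omega

theorem dist_lt {n N : ℕ} {R : Fin n × Bool → Fin n × Bool → Prop} {g h : Fin n → ℕ}
    (hg : g ∈ cfgB N R) (hh : h ∈ cfgB N R) {l : Fin n × Bool} (hl : lv N g l < lv N h l)
    (hmax : ∀ m, lv N g m < lv N h m → lv N g m ≤ lv N g l) {k : ℕ} (hk : k < N)
    (hkl : k = lv N g l ∨ k + 2 + lv N g l = 2 * N) :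
    ∑ a, ((mb N k (k + 1) g a : ℤ) - h a) ^ 2 < ∑ a, ((g a : ℤ) - h a) ^ 2 := by
  have hgc := mem_cfgB.1 hg
  have hhc := mem_cfgB.1 hh
  have b0 := lv_lt hhc.1 l
  -- the square at a label, by a literal
  have sq_lit : ∀ (f : Fin n → ℕ), (∀ a, f a < 2 * N) → ∀ m : Fin n × Bool,
      ((f m.1 : ℤ) - h m.1) ^ 2 = ((lv N f m : ℤ) - lv N h m) ^ 2 := by
    intro f hf m
    have h1 := hf m.1
    have h2 := hhc.1 m.1
    unfold lv
    by_cases hm : m.2 = true
    · rw [if_pos hm, if_pos hm]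
    · rw [if_neg hm, if_neg hm]
      have e1 : ((2 * N - 1 - f m.1 : ℕ) : ℤ) = 2 * N - 1 - f m.1 := by omega
      have e2 : ((2 * N - 1 - h m.1 : ℕ) : ℤ) = 2 * N - 1 - h m.1 := by omega
      rw [e1, e2]
      ring
  have hkN : k < 2 * N := by omega
  have hkN' : k + 1 < 2 * N := by omega
  have hmlt := mb_lt hgc.1 hkN hkN'
  have lvr : ∀ m, lv N (mb N k (k + 1) g) m = rf N k (k + 1) (lv N g m) :=
    lv_mb hgc.1 hkN hkN' (by omega)
  obtain ⟨x, hx⟩ : ∃ x, x = lv N g l := ⟨_, rfl⟩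
  obtain ⟨y, hy⟩ : ∃ y, y = lv N h l := ⟨_, rfl⟩
  rw [← hx] at hkl hmax
  rw [← hx, ← hy] at hl
  rw [← hy] at b0
  have rx : rf N k (k + 1) x = x + 1 := by
    unfold rf; split_ifs <;> omega
  have d0 : ((mb N k (k + 1) g l.1 : ℤ) - h l.1) ^ 2 - ((g l.1 : ℤ) - h l.1) ^ 2 =
      -(2 * ((y : ℤ) - x) - 1) := by
    rw [sq_lit _ hmlt l, sq_lit _ hgc.1 l, lvr l, ← hx, ← hy, rx]
    push_cast
    ring
  rw [← sub_neg, ← Finset.sum_sub_distrib]
  by_cases hb : ∃ m : Fin n × Bool, m.1 ≠ l.1 ∧ lv N g m = x + 1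
  · obtain ⟨m, hml, hm⟩ := hb
    obtain ⟨z, hz⟩ : ∃ z, z = lv N h m := ⟨_, rfl⟩
    have hzx : z ≤ x + 1 := by
      by_contra hcon
      have := hmax m (by omega)
      omega
    have hzy : z ≠ y := by
      intro he
      rw [hz, hy] at he
      exact hml (congrArg Prod.fst (hhc.2.1 he))
    have rx1 : rf N k (k + 1) (x + 1) = x := by
      unfold rf; split_ifs <;> omega
    have d1 : ((mb N k (k + 1) g m.1 : ℤ) - h m.1) ^ 2 - ((g m.1 : ℤ) - h m.1) ^ 2 =
        -(2 * ((x : ℤ) + 1 - z) - 1) := by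
      rw [sq_lit _ hmlt m, sq_lit _ hgc.1 m, lvr m, ← hz, hm, rx1]
      push_cast
      ring
    rw [Finset.sum_eq_add l.1 m.1 hml.symm]
    · rw [d0, d1]
      rcases Nat.lt_or_ge z (x + 1) with h1 | h1
      · have h1' : (z : ℤ) ≤ x := by exact_mod_cast Nat.lt_succ_iff.1 h1
        have h2' : (x : ℤ) + 1 ≤ y := by exact_mod_cast hl
        linarith
      · have h1' : (z : ℤ) = x + 1 := by
          have : z = x + 1 := le_antisymm hzx h1
          rw [this]; push_cast; ring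
        have h2' : (x : ℤ) + 2 ≤ y := by
          have : x + 2 ≤ y := by omega
          exact_mod_cast this
        linarith
    · rintro c - ⟨hc1, hc2⟩
      have e : mb N k (k + 1) g c = g c := by
        have i1 : lv N g (c, true) ≠ lv N g l := fun h => hc1 (congrArg Prod.fst (hgc.2.1 h))
        have i2 : lv N g (c, false) ≠ lv N g l := fun h => hc1 (congrArg Prod.fst (hgc.2.1 h))
        have i3 : lv N g (c, true) ≠ lv N g m := fun h => hc2 (congrArg Prod.fst (hgc.2.1 h))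
        have i4 : lv N g (c, false) ≠ lv N g m := fun h => hc2 (congrArg Prod.fst (hgc.2.1 h))
        have i5 := hgc.1 c
        rw [hm] at i3 i4
        rw [← hx] at i1 i2
        unfold lv at i1 i2 i3 i4
        simp only [if_true, Bool.false_eq_true, if_false] at i1 i2 i3 i4
        unfold mb rf
        split_ifs <;> omega
      rw [e, sub_self]
    · intro h; exact absurd (Finset.mem_univ _) h
    · intro h; exact absurd (Finset.mem_univ _) h
  · push Not at hb
    rw [Finset.sum_eq_single l.1]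
    · rw [d0]
      have h2' : (x : ℤ) + 1 ≤ y := by exact_mod_cast hl
      linarith
    · intro c _ hc
      have e : mb N k (k + 1) g c = g c := by
        have i1 : lv N g (c, true) ≠ lv N g l := fun h => hc (congrArg Prod.fst (hgc.2.1 h))
        have i2 : lv N g (c, false) ≠ lv N g l := fun h => hc (congrArg Prod.fst (hgc.2.1 h))
        have i3 := hb (c, true) hc
        have i4 := hb (c, false) hc
        have i5 := hgc.1 c
        rw [← hx] at i1 i2
        unfold lv at i1 i2 i3 i4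
        simp only [if_true, Bool.false_eq_true, if_false] at i1 i2 i3 i4
        unfold mb rf
        split_ifs <;> omega
      rw [e, sub_self]
    · intro h; exact absurd (Finset.mem_univ _) h

theorem connB : S_CONNB := by
  intro n N R F hF g hg h hh
  have hhc := mem_cfgB.1 hh
  -- strong induction on the squared distance
  obtain ⟨d, hd⟩ : ∃ d : ℕ, ∑ a, ((g a : ℤ) - h a) ^ 2 = d :=
    ⟨_, (Int.toNat_of_nonneg (Finset.sum_nonneg fun a _ => sq_nonneg _)).symm⟩
  induction d using Nat.strong_induction_on generalizing g with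
  | _ d ih =>
    have hgc := mem_cfgB.1 hg
    by_cases heq : g = h
    · rw [heq]
    -- a literal which has to move up
    have hex : ∃ l : Fin n × Bool, lv N g l < lv N h l := by
      by_contra hcon
      push Not at hcon
      apply heq
      funext a
      have h1 := hcon (a, true)
      have h2 := hcon (a, false)
      have b1 := hgc.1 a
      have b2 := hhc.1 a
      unfold lv at h1 h2
      simp only [if_true, Bool.false_eq_true, if_false] at h1 h2
      omega
    obtain ⟨l, hl, hmax⟩ : ∃ l : Fin n × Bool, lv N g l < lv N h l ∧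
        ∀ m, lv N g m < lv N h m → lv N g m ≤ lv N g l := by
      classical
      obtain ⟨l, hl, hm⟩ := Finset.exists_max_image
        (Finset.univ.filter fun l : Fin n × Bool => lv N g l < lv N h l) (lv N g)
        (by obtain ⟨l, hl⟩ := hex; exact ⟨l, Finset.mem_filter.2 ⟨Finset.mem_univ _, hl⟩⟩)
      exact ⟨l, (Finset.mem_filter.1 hl).2, fun m hm' =>
        hm m (Finset.mem_filter.2 ⟨Finset.mem_univ _, hm'⟩)⟩
    have b1 := lv_lt hgc.1 l
    have b2 := lv_lt hhc.1 l
    obtain ⟨k, hk, hkl⟩ : ∃ k, k < N ∧ (k = lv N g l ∨ k + 2 + lv N g l = 2 * N) := by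
      rcases Nat.lt_or_ge (lv N g l) N with h1 | h1
      · exact ⟨_, h1, Or.inl rfl⟩
      · exact ⟨2 * N - 2 - lv N g l, by omega, Or.inr (by omega)⟩
    have hok := up_ok hg hh hl hmax hk hkl
    have hlt := dist_lt hg hh hl hmax hk hkl
    obtain ⟨d', hd'⟩ : ∃ d' : ℕ, ∑ a, ((mb N k (k + 1) g a : ℤ) - h a) ^ 2 = d' :=
      ⟨_, (Int.toNat_of_nonneg (Finset.sum_nonneg fun a _ => sq_nonneg _)).symm⟩
    rw [hd, hd'] at hlt
    have := ih d' (by exact_mod_cast hlt) (mb N k (k + 1) g) hok hd'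
    rw [← this]
    exact (hF g hg k hk hok).symm

/-! ### the lattice inequality -/

namespace Lat

open Classical in
/-- the weights -/
noncomputable def w {n : ℕ} (N : ℕ) (R : Fin n × Bool → Fin n × Bool → Prop) (c : ℕ → ℝ)
    (x y : {g // g ∈ cfgB N R}) : ℝ :=
  ∑ k ∈ Finset.range N, if mb N k (k + 1) x.1 = y.1 then c k else 0

lemma w_symm {n : ℕ} (N : ℕ) (R : Fin n × Bool → Fin n × Bool → Prop) (c : ℕ → ℝ)
    (x y : {g // g ∈ cfgB N R}) : w N R c x y = w N R c y x := by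
  unfold w
  refine Finset.sum_congr rfl fun k hk => ?_
  have hk' := Finset.mem_range.1 hk
  have : mb N k (k + 1) x.1 = y.1 ↔ mb N k (k + 1) y.1 = x.1 := by
    constructor
    · intro h; rw [← h, mb_mb (mem_cfgB.1 x.2).1 (by omega) (by omega)]
    · intro h; rw [← h, mb_mb (mem_cfgB.1 y.2).1 (by omega) (by omega)]
  simp only [this]

open Classical in
lemma sum_w {n : ℕ} (N : ℕ) (R : Fin n × Bool → Fin n × Bool → Prop) (c : ℕ → ℝ)
    (x : {g // g ∈ cfgB N R}) (φ : (Fin n → ℕ) → ℝ) :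
    ∑ y : {g // g ∈ cfgB N R}, w N R c x y * φ y.1 =
      ∑ k ∈ Finset.range N,
        if mb N k (k + 1) x.1 ∈ cfgB N R then c k * φ (mb N k (k + 1) x.1) else 0 := by
  unfold w
  simp_rw [Finset.sum_mul]
  rw [Finset.sum_comm]
  refine Finset.sum_congr rfl fun k _ => ?_
  split_ifs with h
  · rw [Finset.sum_eq_single ⟨mb N k (k + 1) x.1, h⟩]
    · simp
    · intro y _ hy
      rw [if_neg, zero_mul]
      intro he
      exact hy (Subtype.ext he.symm)
    · intro hn
      exact absurd (Finset.mem_univ _) hn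
  · apply Finset.sum_eq_zero
    intro y _
    rw [if_neg, zero_mul]
    intro he
    rw [he] at h
    exact h y.2

end Lat

open Classical in
theorem latB (h1 : S_CONB) (h2 : S_CONNB) (h3 : Pool.Agent.R972.OP.S_LA) : S_LATB := by
  intro n N R W c hWC F
  have key := h3 {g // g ∈ cfgB N R} (Lat.w N R c) (Lat.w_symm N R c) ?_ (fun x => F x.1)
  · rw [Fintype.card_coe] at key
    have e1 : ∑ x : {g // g ∈ cfgB N R}, F x.1 ^ 2 = ∑ g ∈ cfgB N R, F g ^ 2 :=
      Finset.sum_coe_sort (cfgB N R) (fun g => F g ^ 2)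
    have e2 : ∑ x : {g // g ∈ cfgB N R}, F x.1 = ∑ g ∈ cfgB N R, F g :=
      Finset.sum_coe_sort (cfgB N R) F
    have e3 : ∑ x : {g // g ∈ cfgB N R}, ∑ y : {g // g ∈ cfgB N R},
        Lat.w N R c x y * (F y.1 - F x.1) ^ 2 = ∑ g ∈ cfgB N R, QQB N R c F g := by
      rw [← Finset.sum_coe_sort (cfgB N R) (fun g => QQB N R c F g)]
      refine Finset.sum_congr rfl fun x _ => ?_
      rw [Lat.sum_w N R c x (fun g => (F g - F x.1) ^ 2)]
      rfl
    rw [e1, e2, e3] at key
    exact key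
  · intro lam G hG hne
    set G' : (Fin n → ℕ) → ℝ := fun g => if h : g ∈ cfgB N R then G ⟨g, h⟩ else 0 with hG'
    have hGG : ∀ x : {g // g ∈ cfgB N R}, G' x.1 = G x := by
      intro x
      rw [hG']
      simp
    apply h1 n N R W c lam G' hWC
    · intro g hg
      have e4 := hG ⟨g, hg⟩
      have e5 : ∑ y : {g // g ∈ cfgB N R}, Lat.w N R c ⟨g, hg⟩ y * (G y - G ⟨g, hg⟩) =
          ∑ y : {g // g ∈ cfgB N R}, Lat.w N R c ⟨g, hg⟩ y * (G' y.1 - G' g) := by
        refine Finset.sum_congr rfl fun y _ => ?_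
        rw [hGG y, hGG ⟨g, hg⟩]
      rw [e5, Lat.sum_w N R c ⟨g, hg⟩ (fun h => G' h - G' g), ← hGG ⟨g, hg⟩] at e4
      exact e4
    · by_contra hcon
      push Not at hcon
      obtain ⟨x, y, hxy⟩ := hne
      apply hxy
      rw [← hGG x, ← hGG y]
      exact h2 n N R G' (fun g hg k hk hmem => hcon g hg k hk hmem) x.1 x.2 y.1 y.2

end Pool.Agent.T2H73.SB
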