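import Pool.Agent.T2H73.SB.Pt
import Pool.Agent.R364.OP.RS

/-!
# Signed order polytopes: Riemann sums
-/

set_option autoImplicit false

namespace Pool.Agent.T2H73.SB

open MeasureTheory Set Filter Topology
open Pool.Agent.R972.OP (lp)
open Pool.Agent.R364.OP (fl cell mem_cell measurableSet_cell volume_cell null_eq null_const
  lp_fl_tendsto)

variable {n : ℕ}

open Classical in
/-- step function -/
noncomputable def hhB (R : Fin n × Bool → Fin n × Bool → Prop) (G : (Fin n → ℝ) → ℝ) (N : ℕ)
    (x : Fin n → ℝ) : ℝ :=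
  if (∀ a, 0 ≤ x a) ∧ fl (2 * N) x ∈ cfgB N R then G (lp (2 * N) (fl (2 * N) x)) else 0

theorem hhB_eq (R : Fin n × Bool → Fin n × Bool → Prop) (G : (Fin n → ℝ) → ℝ) {N : ℕ}
    (hN : 0 < N) (x : Fin n → ℝ) :
    hhB R G N x = ∑ g ∈ cfgB N R, (cell (2 * N) g).indicator (fun _ => G (lp (2 * N) g)) x := by
  classical
  have hN2 : 0 < 2 * N := by omega
  unfold hhB
  by_cases h0 : ∀ a, 0 ≤ x a
  · have : ∀ g ∈ cfgB N R, (cell (2 * N) g).indicator (fun _ => G (lp (2 * N) g)) x =
        if fl (2 * N) x = g then G (lp (2 * N) g) else 0 := by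
      intro g _
      by_cases h : fl (2 * N) x = g
      · rw [if_pos h, indicator_of_mem ((mem_cell hN2 g x).2 ⟨h0, h⟩)]
      · rw [if_neg h, indicator_of_notMem]
        intro hx
        exact h ((mem_cell hN2 g x).1 hx).2
    rw [Finset.sum_congr rfl this, Finset.sum_ite_eq]
    by_cases h1 : fl (2 * N) x ∈ cfgB N R
    · rw [if_pos ⟨h0, h1⟩, if_pos h1]
    · rw [if_neg (fun h => h1 h.2), if_neg h1]
  · rw [if_neg (fun h => h0 h.1)]
    symm
    apply Finset.sum_eq_zero
    intro g _
    rw [indicator_of_notMem]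
    intro hx
    exact h0 ((mem_cell hN2 g x).1 hx).1

theorem integral_hhB (R : Fin n × Bool → Fin n × Bool → Prop) (G : (Fin n → ℝ) → ℝ) {N : ℕ}
    (hN : 0 < N) :
    ∫ x, hhB R G N x = (∑ g ∈ cfgB N R, G (lp (2 * N) g)) / ((2 * N : ℕ) : ℝ) ^ n := by
  have hN2 : 0 < 2 * N := by omega
  have : ∀ x, hhB R G N x =
      ∑ g ∈ cfgB N R, (cell (2 * N) g).indicator (fun _ => G (lp (2 * N) g)) x :=
    hhB_eq R G hN
  simp only [this]
  have hfin : ∀ g : Fin n → ℕ, volume (cell (2 * N) g) ≠ ⊤ := by
    intro g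
    unfold cell
    rw [Real.volume_pi_Ico]
    exact ENNReal.prod_ne_top fun a _ => ENNReal.ofReal_ne_top
  rw [integral_finsetSum]
  · rw [Finset.sum_div]
    apply Finset.sum_congr rfl
    intro g _
    rw [integral_indicator_const _ (measurableSet_cell (2 * N) g), volume_cell hN2, smul_eq_mul]
    ring
  · intro g _
    rw [integrable_indicator_iff (measurableSet_cell (2 * N) g)]
    exact integrableOn_const (hfin g)

theorem null_add (a b : Fin n) :
    (volume : Measure (Fin n → ℝ)) {x | x a + x b = 1} = 0 := by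
  by_cases hab : a = b
  · subst hab
    have h := null_const (n := n) a (1 / 2)
    refine measure_mono_null ?_ h
    intro x hx
    simp only [mem_ofPred_eq] at hx ⊢
    linarith
  · -- the affine hyperplane
    have hcont : Continuous fun x : Fin n → ℝ => x a + x b := by fun_prop
    let S : AffineSubspace ℝ (Fin n → ℝ) :=
      { carrier := {x | x a + x b = 1}
        smul_vsub_vadd_mem' := by
          intro c x y z hx hy hz
          simp only [mem_ofPred_eq, vsub_eq_sub, vadd_eq_add, Pi.add_apply, Pi.smul_apply,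
            Pi.sub_apply, smul_eq_mul] at *
          linear_combination c * hx - c * hy + hz }
    have hS : S ≠ ⊤ := by
      intro h
      have h2 : (0 : Fin n → ℝ) ∈ S := by rw [h]; trivial
      have h3 : (0 : Fin n → ℝ) a + (0 : Fin n → ℝ) b = 1 := h2
      simp at h3
    exact Measure.addHaar_affineSubspace (volume : Measure (Fin n → ℝ)) S hS

theorem ae_goodB : ∀ᵐ x : Fin n → ℝ, (∀ a b, a ≠ b → x a ≠ x b) ∧ (∀ a, x a ≠ 1) ∧
    ∀ a b, x a + x b ≠ 1 := by
  have h1 := Pool.Agent.R364.OP.ae_good (n := n)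
  have h2 : ∀ᵐ x : Fin n → ℝ, ∀ a b, x a + x b ≠ 1 := by
    rw [ae_all_iff]; intro a
    rw [ae_all_iff]; intro b
    rw [ae_iff]
    refine measure_mono_null ?_ (null_add (n := n) a b)
    intro x hx
    simpa using hx
  filter_upwards [h1, h2] with x ha hb
  exact ⟨ha.1, ha.2, hb⟩

/-- positions of literals, bounds -/
theorem lv_bd {N : ℕ} (hN : 0 < N) {x : Fin n → ℝ} (h0 : ∀ a, 0 ≤ x a)
    (hlt : ∀ a, fl (2 * N) x a < 2 * N) (l : Fin n × Bool) :
    (lv N (fl (2 * N) x) l : ℝ) ≤ 2 * N * vl x l ∧
      2 * N * vl x l - 1 ≤ (lv N (fl (2 * N) x) l : ℝ) := by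
  have h1 := hlt l.1
  have hf : fl (2 * N) x l.1 = ⌊x l.1 * ((2 * N : ℕ) : ℝ)⌋₊ := rfl
  have hp : 0 ≤ x l.1 * ((2 * N : ℕ) : ℝ) := mul_nonneg (h0 _) (by positivity)
  have h2 := Nat.floor_le hp
  have h3 := Nat.lt_floor_add_one (x l.1 * ((2 * N : ℕ) : ℝ))
  rw [← hf] at h2 h3
  push_cast at h2 h3
  unfold lv vl
  by_cases hl : l.2 = true
  · rw [if_pos hl, if_pos hl]
    constructor <;> linarith
  · rw [if_neg hl, if_neg hl]
    have e1 : ((2 * N - 1 - fl (2 * N) x l.1 : ℕ) : ℝ) = 2 * N - 1 - fl (2 * N) x l.1 := by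
      rw [Nat.cast_sub (by omega), Nat.cast_sub (by omega)]
      push_cast
      ring
    rw [e1]
    constructor <;> linarith

theorem pointwiseB {R : Fin n × Bool → Fin n × Bool → Prop} (hR : ∀ l, ¬ R l l)
    {G : (Fin n → ℝ) → ℝ} (hG : Continuous G) {x : Fin n → ℝ} (hd : ∀ a b, a ≠ b → x a ≠ x b)
    (h1 : ∀ a, x a ≠ 1) (hs : ∀ a b, x a + x b ≠ 1) :
    Tendsto (fun N : ℕ => hhB R G N x) atTop (𝓝 ((OPB R).indicator G x)) := by
  classical
  by_cases hx : x ∈ OPB R
  · rw [indicator_of_mem hx]
    obtain ⟨hc, hr⟩ := hx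
    have h0 : ∀ a, 0 ≤ x a := fun a => (hc a).1
    have hne : ∀ l m : Fin n × Bool, l ≠ m → vl x l ≠ vl x m := by
      rintro ⟨a, s⟩ ⟨b, t⟩ hlm
      unfold vl
      cases s <;> cases t
      · have : a ≠ b := by rintro rfl; exact hlm rfl
        have := hd a b this
        simp only [Bool.false_eq_true, if_false]
        intro h; apply this; linarith
      · have := hs a b
        simp only [Bool.false_eq_true, if_false, if_true]
        intro h; apply this; linarith
      · have := hs a b
        simp only [Bool.false_eq_true, if_false, if_true]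
        intro h; apply this; linarith
      · have : a ≠ b := by rintro rfl; exact hlm rfl
        simp only [if_true]
        exact hd a b this
    have hlt : ∀ᶠ N : ℕ in atTop, ∀ a, fl (2 * N) x a < 2 * N := by
      filter_upwards [eventually_gt_atTop 0] with N hN0 a
      have hN' : (0 : ℝ) < N := by exact_mod_cast hN0
      unfold fl
      rw [Nat.floor_lt (mul_nonneg (h0 a) (by positivity))]
      have : x a < 1 := lt_of_le_of_ne (hc a).2 (h1 a)
      push_cast
      nlinarith
    have hev1 : ∀ᶠ N : ℕ in atTop, ∀ l m, vl x l < vl x m →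
        lv N (fl (2 * N) x) l < lv N (fl (2 * N) x) m := by
      rw [eventually_all]; intro l
      rw [eventually_all]; intro m
      by_cases hlm : vl x l < vl x m
      · have hpos : 0 < vl x m - vl x l := sub_pos.2 hlm
        obtain ⟨k, hk⟩ := exists_nat_gt (1 / (vl x m - vl x l))
        filter_upwards [eventually_ge_atTop k, hlt, eventually_gt_atTop 0] with N hN hN2 hN0 _
        have b1 := (lv_bd hN0 h0 hN2 l).1
        have b2 := (lv_bd hN0 h0 hN2 m).2
        have h3 : 1 / (vl x m - vl x l) < N := lt_of_lt_of_le hk (by exact_mod_cast hN)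
        rw [div_lt_iff₀ hpos] at h3
        have h4 : (lv N (fl (2 * N) x) l : ℝ) < lv N (fl (2 * N) x) m := by nlinarith
        exact_mod_cast h4
      · exact Eventually.of_forall fun N h => absurd h hlm
    have hev : ∀ᶠ N : ℕ in atTop, G (lp (2 * N) (fl (2 * N) x)) = hhB R G N x := by
      filter_upwards [hev1, hlt] with N hN hN2
      unfold hhB
      rw [if_pos]
      refine ⟨h0, mem_cfgB.2 ⟨hN2, ?_, ?_⟩⟩
      · intro l m hlm
        by_contra hne'
        rcases lt_or_gt_of_ne (hne l m hne') with h | h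
        · exact absurd hlm (ne_of_lt (hN l m h))
        · exact absurd hlm (ne_of_gt (hN m l h))
      · intro l m hlm
        have hne' : l ≠ m := by rintro rfl; exact hR l hlm
        exact hN l m (lt_of_le_of_ne (hr l m hlm) (hne l m hne'))
    refine Tendsto.congr' hev ?_
    have h2N : Tendsto (fun N : ℕ => 2 * N) atTop atTop :=
      tendsto_id.const_mul_atTop' (by norm_num)
    exact (hG.tendsto x).comp ((lp_fl_tendsto h0).comp h2N)
  · rw [indicator_of_notMem hx]
    have hev : ∀ᶠ N : ℕ in atTop, (0 : ℝ) = hhB R G N x := by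
      filter_upwards [eventually_gt_atTop 0] with N hN0
      have hN' : (0 : ℝ) < N := by exact_mod_cast hN0
      unfold hhB
      rw [if_neg]
      rintro ⟨h0, hcf⟩
      apply hx
      obtain ⟨hlt, hinj, hr⟩ := mem_cfgB.1 hcf
      refine ⟨fun a => ⟨h0 a, ?_⟩, fun l m hlm => ?_⟩
      · have := hlt a
        unfold fl at this
        rw [Nat.floor_lt (mul_nonneg (h0 a) (by positivity))] at this
        push_cast at this
        by_contra hcon
        push Not at hcon
        nlinarith
      · have h2 := hr l m hlm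
        have h2' : (lv N (fl (2 * N) x) l : ℝ) + 1 ≤ lv N (fl (2 * N) x) m := by
          exact_mod_cast h2
        have b1 := (lv_bd hN0 h0 hlt l).2
        have b2 := (lv_bd hN0 h0 hlt m).1
        nlinarith
    exact Tendsto.congr' hev tendsto_const_nhds

theorem continuous_vl (l : Fin n × Bool) : Continuous fun x : Fin n → ℝ => vl x l := by
  unfold vl
  split_ifs <;> fun_prop

theorem isClosed_OPB (R : Fin n × Bool → Fin n × Bool → Prop) : IsClosed (OPB R) := by
  have h1 : OPB R = (⋂ i, ({x : Fin n → ℝ | 0 ≤ x i} ∩ {x : Fin n → ℝ | x i ≤ 1})) ∩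
      ⋂ i, ⋂ j, ⋂ (_ : R i j), {x : Fin n → ℝ | vl x i ≤ vl x j} := by
    ext x
    simp only [OPB, mem_ofPred_eq, mem_inter_iff, mem_iInter]
  rw [h1]
  refine IsClosed.inter (isClosed_iInter fun i => IsClosed.inter ?_ ?_)
    (isClosed_iInter fun i => isClosed_iInter fun j => isClosed_iInter fun _ => ?_)
  · exact isClosed_le continuous_const (continuous_apply i)
  · exact isClosed_le (continuous_apply i) continuous_const
  · exact isClosed_le (continuous_vl i) (continuous_vl j)

theorem measurableSet_OPB (R : Fin n × Bool → Fin n × Bool → Prop) : MeasurableSet (OPB R) :=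
  (isClosed_OPB R).measurableSet

theorem isCompact_OPB (R : Fin n × Bool → Fin n × Bool → Prop) : IsCompact (OPB R) := by
  refine IsCompact.of_isClosed_subset (isCompact_univ_pi (fun _ : Fin n => isCompact_Icc
    (a := (0:ℝ)) (b := 1))) (isClosed_OPB R) ?_
  intro x hx
  rw [mem_univ_pi]
  exact hx.1

theorem rsB : S_RSB := by
  classical
  intro n R hR G hG
  -- bound of G on the cube
  have hK : IsCompact (Icc (0 : Fin n → ℝ) 1) := isCompact_Icc
  obtain ⟨M, hM⟩ := hK.exists_bound_of_continuousOn hG.continuousOn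
  have hM0 : 0 ≤ M := le_trans (norm_nonneg _) (hM 0 ⟨le_refl _, zero_le_one⟩)
  have hlim : Tendsto (fun N : ℕ => ∫ x, hhB R G N x) atTop
      (𝓝 (∫ x, (OPB R).indicator G x)) := by
    refine tendsto_integral_filter_of_dominated_convergence
      ((Icc (0 : Fin n → ℝ) 1).indicator fun _ => M) ?_ ?_ ?_ ?_
    · filter_upwards [eventually_gt_atTop 0] with N hN
      have : hhB R G N = fun x =>
          ∑ g ∈ cfgB N R, (cell (2 * N) g).indicator (fun _ => G (lp (2 * N) g)) x :=
        funext (hhB_eq R G hN)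
      rw [this]
      apply Measurable.aestronglyMeasurable
      exact Finset.measurable_sum _ fun g _ =>
        measurable_const.indicator (measurableSet_cell (2 * N) g)
    · filter_upwards [eventually_gt_atTop 0] with N hN
      have hN' : (0 : ℝ) < N := by exact_mod_cast hN
      refine Eventually.of_forall fun x => ?_
      unfold hhB
      by_cases h : (∀ a, 0 ≤ x a) ∧ fl (2 * N) x ∈ cfgB N R
      · rw [if_pos h]
        obtain ⟨h0, hcf⟩ := h
        have hlt := (mem_cfgB.1 hcf).1
        have hxm : x ∈ Icc (0 : Fin n → ℝ) 1 := by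
          refine ⟨fun a => h0 a, fun a => ?_⟩
          have := hlt a
          unfold fl at this
          rw [Nat.floor_lt (mul_nonneg (h0 a) (by positivity))] at this
          push_cast at this
          by_contra hcon
          push Not at hcon
          have h2 : (1 : ℝ) < x a := hcon
          nlinarith
        rw [indicator_of_mem hxm]
        apply hM
        refine ⟨fun a => ?_, fun a => ?_⟩
        · show (0 : ℝ) ≤ (fl (2 * N) x a : ℝ) / ((2 * N : ℕ) : ℝ)
          positivity
        · show (fl (2 * N) x a : ℝ) / ((2 * N : ℕ) : ℝ) ≤ 1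
          rw [div_le_one (by push_cast; positivity)]
          exact_mod_cast (hlt a).le
      · rw [if_neg h, norm_zero]
        exact indicator_nonneg (fun _ _ => hM0) x
    · rw [integrable_indicator_iff measurableSet_Icc]
      exact integrableOn_const hK.measure_lt_top.ne
    · filter_upwards [ae_goodB (n := n)] with x hx
      exact pointwiseB hR hG hx.1 hx.2.1 hx.2.2
  rw [integral_indicator (measurableSet_OPB R)] at hlim
  refine Tendsto.congr' ?_ hlim
  filter_upwards [eventually_gt_atTop 0] with N hN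
  exact integral_hhB R G hN

end Pool.Agent.T2H73.SB
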