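import Pool.Agent.T2H73.SB.Pt

/-!
# Signed order polytopes: contacts, the energy of a placement
-/

set_option autoImplicit false

namespace Pool.Agent.T2H73.SB

open MeasureTheory Set Filter Topology

variable {n : ℕ}

/-! ### few placements have labels in contact -/

open Classical in
/-- counting placements with one position determined by another one -/
theorem cntB (N : ℕ) (R : Fin n × Bool → Fin n × Bool → Prop) (p : Fin n × Fin n)
    (hp : p.1 ≠ p.2) (P : ℕ → ℕ → Prop) (hP : ∀ x y z, P x y → P x z → y = z) :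
    ((cfgB N R).filter fun g => P (g p.1) (g p.2)).card ≤ (2 * N) ^ (n - 1) := by
  have h1 : ((cfgB N R).filter fun g => P (g p.1) (g p.2)).card ≤
      (Fintype.piFinset (Function.update (fun _ : Fin n => Finset.range (2 * N)) p.2 {0})).card := by
    apply Finset.card_le_card_of_injOn (fun g => Function.update g p.2 0)
    · intro g hg
      have hg1 := (Finset.mem_filter.1 hg).1
      have hg2 := (mem_cfgB.1 hg1).1
      rw [Finset.mem_coe, Fintype.mem_piFinset]
      intro a
      by_cases ha : a = p.2
      · subst ha; simp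
      · show Function.update g p.2 0 a ∈ _
        rw [Function.update_of_ne ha, Function.update_of_ne ha]
        exact Finset.mem_range.2 (hg2 a)
    · intro g hg h hh hgh
      have hg1 := (Finset.mem_filter.1 hg).2
      have hh1 := (Finset.mem_filter.1 hh).2
      have hgh' : Function.update g p.2 0 = Function.update h p.2 0 := hgh
      funext a
      by_cases ha : a = p.2
      · subst ha
        have h2 := congrFun hgh' p.1
        rw [Function.update_of_ne hp, Function.update_of_ne hp] at h2
        rw [← h2] at hh1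
        exact hP _ _ _ hg1 hh1
      · have h2 := congrFun hgh' a
        rwa [Function.update_of_ne ha, Function.update_of_ne ha] at h2
  refine le_trans h1 (le_of_eq ?_)
  rw [Fintype.card_piFinset, ← Finset.mul_prod_erase Finset.univ _ (Finset.mem_univ p.2)]
  rw [Function.update_self, Finset.card_singleton, one_mul]
  rw [Finset.prod_congr rfl (g := fun _ => 2 * N)]
  · rw [Finset.prod_const, Finset.card_erase_of_mem (Finset.mem_univ _), Finset.card_univ,
      Fintype.card_fin]
  · intro a ha
    rw [Function.update_of_ne (Finset.ne_of_mem_erase ha), Finset.card_range]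

theorem cntB2 (N : ℕ) (R : Fin n × Bool → Fin n × Bool → Prop) (p : Fin n × Fin n)
    (hp : p.1 ≠ p.2) (P : ℕ → ℕ → Prop) (hP : ∀ x y z, P x y → P x z → y = z) :
    ∃ S : Finset (Fin n → ℕ), (∀ g ∈ cfgB N R, P (g p.1) (g p.2) → g ∈ S) ∧
      S.card ≤ (2 * N) ^ (n - 1) := by
  classical
  exact ⟨_, fun g hg h => Finset.mem_filter.2 ⟨hg, h⟩, cntB N R p hp P hP⟩

open Classical in
theorem cntB3 (N : ℕ) (R : Fin n × Bool → Fin n × Bool → Prop) (p : Fin n × Fin n) :
    ((cfgB N R).filter fun g => ctc N g p).card ≤ 3 * (2 * N) ^ (n - 1) := by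
  by_cases hp : p.1 = p.2
  · rw [Finset.card_eq_zero.2]
    · exact Nat.zero_le _
    · apply Finset.filter_eq_empty_iff.2
      intro g _ h
      exact h.1 hp
  · obtain ⟨S1, m1, c1⟩ : ∃ S : Finset (Fin n → ℕ), (∀ g ∈ cfgB N R, g p.2 = g p.1 + 1 →
        g ∈ S) ∧ S.card ≤ (2 * N) ^ (n - 1) :=
      cntB2 N R p hp (fun x y => y = x + 1) (by intros; omega)
    obtain ⟨S2, m2, c2⟩ : ∃ S : Finset (Fin n → ℕ), (∀ g ∈ cfgB N R,
        g p.1 + g p.2 + 2 = 2 * N → g ∈ S) ∧ S.card ≤ (2 * N) ^ (n - 1) :=
      cntB2 N R p hp (fun x y => x + y + 2 = 2 * N) (by intros; omega)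
    obtain ⟨S3, m3, c3⟩ : ∃ S : Finset (Fin n → ℕ), (∀ g ∈ cfgB N R,
        g p.1 + g p.2 = 2 * N → g ∈ S) ∧ S.card ≤ (2 * N) ^ (n - 1) :=
      cntB2 N R p hp (fun x y => x + y = 2 * N) (by intros; omega)
    have hsub : ((cfgB N R).filter fun g => ctc N g p) ⊆ (S1 ∪ S2) ∪ S3 := by
      intro g hg
      obtain ⟨hg1, hg2⟩ := Finset.mem_filter.1 hg
      simp only [Finset.mem_union]
      rcases hg2.2 with h | h | h
      · exact Or.inl (Or.inl (m1 g hg1 h))
      · exact Or.inl (Or.inr (m2 g hg1 h))
      · exact Or.inr (m3 g hg1 h)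
    have h4 := Finset.card_le_card hsub
    have h5 := Finset.card_union_le (S1 ∪ S2) S3
    have h6 := Finset.card_union_le S1 S2
    omega

open Classical in
theorem totB (N : ℕ) (R : Fin n × Bool → Fin n × Bool → Prop) :
    ∑ g ∈ cfgB N R, adjB N g ≤ 3 * n ^ 2 * (2 * N) ^ (n - 1) := by
  calc ∑ g ∈ cfgB N R, adjB N g
      = ∑ g ∈ cfgB N R, ∑ p : Fin n × Fin n, (if ctc N g p then 1 else 0) := by
        apply Finset.sum_congr rfl
        intro g _
        unfold adjB
        rw [Finset.card_filter]
    _ = ∑ p : Fin n × Fin n, ∑ g ∈ cfgB N R, (if ctc N g p then 1 else 0) :=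
        Finset.sum_comm
    _ = ∑ p : Fin n × Fin n, ((cfgB N R).filter fun g => ctc N g p).card := by
        apply Finset.sum_congr rfl
        intro p _
        rw [Finset.card_filter]
    _ ≤ ∑ _p : Fin n × Fin n, 3 * (2 * N) ^ (n - 1) :=
        Finset.sum_le_sum fun p _ => cntB3 N R p
    _ = 3 * n ^ 2 * (2 * N) ^ (n - 1) := by
        rw [Finset.sum_const, Finset.card_univ, Fintype.card_prod, Fintype.card_fin, smul_eq_mul]
        ring

theorem adjB_all : S_ADJB := by
  intro n R
  have hlim : Tendsto (fun N : ℕ => (3 * (n : ℝ) ^ 2) / ((2 * N : ℕ) : ℝ)) atTop (𝓝 0) := by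
    have h2N : Tendsto (fun N : ℕ => 2 * N) atTop atTop :=
      tendsto_id.const_mul_atTop' (by norm_num)
    exact (tendsto_const_div_atTop_nhds_zero_nat (3 * (n : ℝ) ^ 2)).comp h2N
  refine squeeze_zero' (Eventually.of_forall fun N => ?_) ?_ hlim
  · exact div_nonneg (Finset.sum_nonneg fun g _ => Nat.cast_nonneg _) (by positivity)
  · filter_upwards [eventually_gt_atTop 0] with N hN
    have hN' : (0 : ℝ) < ((2 * N : ℕ) : ℝ) := Nat.cast_pos.2 (by omega)
    have h1 : (∑ g ∈ cfgB N R, (adjB N g : ℝ)) ≤
        3 * (n : ℝ) ^ 2 * ((2 * N : ℕ) : ℝ) ^ (n - 1) := by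
      exact_mod_cast totB N R
    refine le_trans (div_le_div_of_nonneg_right h1 (by positivity)) (le_of_eq ?_)
    rcases Nat.eq_zero_or_pos n with h0 | h0
    · subst h0; simp
    · obtain ⟨k, rfl⟩ : ∃ k, n = k + 1 := ⟨n - 1, by omega⟩
      rw [Nat.add_sub_cancel, pow_succ ((2 * N : ℕ) : ℝ) k]
      field_simp

/-! ### the energy of a placement -/

lemma sum_ite_le {s : Finset ℕ} {φ : ℕ → Prop} [DecidablePred φ] {x : ℝ} (hx : 0 ≤ x)
    (h : ∀ i ∈ s, ∀ j ∈ s, φ i → φ j → i = j) : ∑ k ∈ s, (if φ k then x else 0) ≤ x := by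
  rw [← Finset.sum_filter, Finset.sum_const, nsmul_eq_mul]
  have h1 : (s.filter φ).card ≤ 1 := by
    rw [Finset.card_le_one]
    intro i hi j hj
    rw [Finset.mem_filter] at hi hj
    exact h i hi.1 j hj.1 hi.2 hj.2
  have h2 : ((s.filter φ).card : ℝ) ≤ 1 := by exact_mod_cast h1
  calc ((s.filter φ).card : ℝ) * x ≤ 1 * x := mul_le_mul_of_nonneg_right h2 hx
    _ = x := one_mul x

theorem rf_fix {N k x : ℕ} (h1 : ¬ Lo N k x) (h2 : ¬ Up N k x) (hk : k < N) :
    rf N k (k + 1) x = x := by
  unfold Lo at h1
  unfold Up at h2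
  unfold rf
  split_ifs <;> omega

theorem rf_Lo {N k x : ℕ} (h1 : Lo N k x) (hk : k < N) : rf N k (k + 1) x = x + 1 := by
  unfold Lo at h1
  unfold rf
  split_ifs <;> omega

theorem rf_Up {N k x : ℕ} (h1 : Up N k x) (hk : k < N) (hx : x < 2 * N) :
    rf N k (k + 1) x = x - 1 := by
  unfold Up at h1
  unfold rf
  split_ifs <;> omega

open Classical in
theorem upcB {N : ℕ} {R : Fin n × Bool → Fin n × Bool → Prop} {c : ℕ → ℝ}
    (F : (Fin n → ℕ) → ℝ) (hc : ∀ k, k + 1 < 2 * N → 0 ≤ c k)
    (hsym : ∀ k, k + 1 < 2 * N → c (2 * N - 2 - k) = c k) {g : Fin n → ℕ} (hg : g ∈ cfgB N R)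
    {C : ℝ} (hC : 0 ≤ C) (hT : ∀ k, k < N → c k * (F (mb N k (k + 1) g) - F g) ^ 2 ≤ C) :
    QQB N R c F g ≤
    (∑ a, (if g a + 1 < 2 * N then
      c (g a) * (F (Function.update g a (g a + 1)) - F g) ^ 2 else 0) +
    ∑ a, (if 0 < g a then
      c (g a - 1) * (F (Function.update g a (g a - 1)) - F g) ^ 2 else 0)) +
    C * (adjB N g : ℝ) := by
  have hgc := mem_cfgB.1 hg
  have hgN := hgc.1
  have hinj := hgc.2.1
  set A : Fin n → ℝ := fun a => if g a + 1 < 2 * N then
    c (g a) * (F (Function.update g a (g a + 1)) - F g) ^ 2 else 0 with hAdef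
  set B : Fin n → ℝ := fun a => if 0 < g a then
    c (g a - 1) * (F (Function.update g a (g a - 1)) - F g) ^ 2 else 0 with hBdef
  have hA : ∀ a, 0 ≤ A a := by
    intro a
    simp only [hAdef]
    split_ifs with h
    · exact mul_nonneg (hc _ h) (sq_nonneg _)
    · exact le_rfl
  have hB : ∀ a, 0 ≤ B a := by
    intro a
    simp only [hBdef]
    split_ifs with h
    · refine mul_nonneg (hc _ ?_) (sq_nonneg _)
      have := hgN a
      omega
    · exact le_rfl
  have hcls : ∀ a b : Fin n, a ≠ b → g a ≠ g b ∧ g a + g b + 1 ≠ 2 * N := by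
    intro a b hab
    constructor
    · intro h
      have : lv N g (a, true) = lv N g (b, true) := by unfold lv; simpa using h
      exact hab (congrArg Prod.fst (hinj this))
    · intro h
      have : lv N g (a, true) = lv N g (b, false) := by unfold lv; simp; omega
      exact hab (congrArg Prod.fst (hinj this))
  have key : ∀ k ∈ Finset.range N,
      (if mb N k (k + 1) g ∈ cfgB N R then c k * (F (mb N k (k + 1) g) - F g) ^ 2 else 0) ≤
      (∑ a, if Lo N k (g a) then A a else 0) + (∑ a, if Up N k (g a) then B a else 0) +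
      ∑ p ∈ Finset.univ.filter (fun p : Fin n × Fin n => ctc N g p),
        if (Lo N k (g p.1) ∨ Up N k (g p.1)) ∧ (Lo N k (g p.2) ∨ Up N k (g p.2))
          then C else 0 := by
    intro k hk
    have hk' := Finset.mem_range.1 hk
    have n1 : 0 ≤ ∑ a, if Lo N k (g a) then A a else 0 :=
      Finset.sum_nonneg fun a _ => by split_ifs; exacts [hA a, le_rfl]
    have n2 : 0 ≤ ∑ a, if Up N k (g a) then B a else 0 :=
      Finset.sum_nonneg fun a _ => by split_ifs; exacts [hB a, le_rfl]
    have n3 : 0 ≤ ∑ p ∈ Finset.univ.filter (fun p : Fin n × Fin n => ctc N g p),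
        if (Lo N k (g p.1) ∨ Up N k (g p.1)) ∧ (Lo N k (g p.2) ∨ Up N k (g p.2))
          then C else 0 :=
      Finset.sum_nonneg fun p hp => by
        split_ifs
        · exact hC
        · exact le_rfl
    have hq : (if mb N k (k + 1) g ∈ cfgB N R then
        c k * (F (mb N k (k + 1) g) - F g) ^ 2 else 0) ≤
        c k * (F (mb N k (k + 1) g) - F g) ^ 2 := by
      split_ifs
      · exact le_rfl
      · exact mul_nonneg (hc _ (by omega)) (sq_nonneg _)
    refine hq.trans ?_
    by_cases h2 : ∃ a b, a ≠ b ∧ (Lo N k (g a) ∨ Up N k (g a)) ∧ (Lo N k (g b) ∨ Up N k (g b))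
    · obtain ⟨a, b, hab, ha, hb⟩ := h2
      have hcl := hcls a b hab
      obtain ⟨p, hp, hp'⟩ : ∃ p : Fin n × Fin n, ctc N g p ∧
          (Lo N k (g p.1) ∨ Up N k (g p.1)) ∧ (Lo N k (g p.2) ∨ Up N k (g p.2)) := by
        by_cases h : ctc N g (a, b)
        · exact ⟨(a, b), h, ha, hb⟩
        · refine ⟨(b, a), ⟨hab.symm, ?_⟩, hb, ha⟩
          have h' : ¬ (g b = g a + 1 ∨ g a + g b + 2 = 2 * N ∨ g a + g b = 2 * N) :=
            fun h' => h ⟨hab, h'⟩
          unfold Lo Up at ha hb
          show g a = g b + 1 ∨ g b + g a + 2 = 2 * N ∨ g b + g a = 2 * N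
          omega
      have h3 : (if (Lo N k (g p.1) ∨ Up N k (g p.1)) ∧ (Lo N k (g p.2) ∨ Up N k (g p.2))
          then C else 0) ≤
          ∑ p ∈ Finset.univ.filter (fun p : Fin n × Fin n => ctc N g p),
            if (Lo N k (g p.1) ∨ Up N k (g p.1)) ∧ (Lo N k (g p.2) ∨ Up N k (g p.2))
              then C else 0 := by
        refine Finset.single_le_sum (f := fun p : Fin n × Fin n =>
          if (Lo N k (g p.1) ∨ Up N k (g p.1)) ∧ (Lo N k (g p.2) ∨ Up N k (g p.2))
              then C else 0)
          (fun p _ => ?_) (Finset.mem_filter.2 ⟨Finset.mem_univ p, hp⟩)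
        beta_reduce
        split_ifs
        · exact hC
        · exact le_rfl
      rw [if_pos hp'] at h3
      have := hT k hk'
      linarith
    · push Not at h2
      by_cases h1 : ∃ a, Lo N k (g a) ∨ Up N k (g a)
      · obtain ⟨a, ha⟩ := h1
        have hoth : ∀ b, b ≠ a → ¬ Lo N k (g b) ∧ ¬ Up N k (g b) := fun b hb =>
          h2 a b hb.symm ha
        rcases ha with ha | ha
        · have e : mb N k (k + 1) g = Function.update g a (g a + 1) := by
            funext b
            by_cases hb : b = a
            · subst hb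
              rw [Function.update_self]
              exact rf_Lo ha hk'
            · rw [Function.update_of_ne hb]
              exact rf_fix (hoth b hb).1 (hoth b hb).2 hk'
          have h3 : (if Lo N k (g a) then A a else 0) ≤ ∑ a, if Lo N k (g a) then A a else 0 :=
            Finset.single_le_sum (f := fun a => if Lo N k (g a) then A a else 0)
              (fun x _ => by beta_reduce; split_ifs; exacts [hA x, le_rfl]) (Finset.mem_univ a)
          rw [if_pos ha] at h3
          have hck : c (g a) = c k := by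
            rcases ha with h | h
            · rw [h]
            · have : g a = 2 * N - 2 - k := by omega
              rw [this]
              exact hsym k (by omega)
          have h4 : A a = c k * (F (mb N k (k + 1) g) - F g) ^ 2 := by
            rw [e]
            simp only [hAdef]
            rw [if_pos (by unfold Lo at ha; omega), hck]
          linarith
        · have hga := hgN a
          have e : mb N k (k + 1) g = Function.update g a (g a - 1) := by
            funext b
            by_cases hb : b = a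
            · subst hb
              rw [Function.update_self]
              exact rf_Up ha hk' hga
            · rw [Function.update_of_ne hb]
              exact rf_fix (hoth b hb).1 (hoth b hb).2 hk'
          have h3 : (if Up N k (g a) then B a else 0) ≤ ∑ a, if Up N k (g a) then B a else 0 :=
            Finset.single_le_sum (f := fun a => if Up N k (g a) then B a else 0)
              (fun x _ => by beta_reduce; split_ifs; exacts [hB x, le_rfl]) (Finset.mem_univ a)
          rw [if_pos ha] at h3
          have hck : c (g a - 1) = c k := by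
            rcases ha with h | h
            · rw [h, Nat.add_sub_cancel]
            · have : g a - 1 = 2 * N - 2 - k := by omega
              rw [this]
              exact hsym k (by omega)
          have h4 : B a = c k * (F (mb N k (k + 1) g) - F g) ^ 2 := by
            rw [e]
            simp only [hBdef]
            rw [if_pos (by unfold Up at ha; omega), hck]
          linarith
      · push Not at h1
        have e : mb N k (k + 1) g = g := by
          funext b
          exact rf_fix (h1 b).1 (h1 b).2 hk'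
        rw [e, sub_self]
        have : c k * (0 : ℝ) ^ 2 = 0 := by ring
        rw [this]
        linarith
  have h1 := Finset.sum_le_sum key
  have e1 : ∑ k ∈ Finset.range N, ∑ a, (if Lo N k (g a) then A a else 0) ≤ ∑ a, A a := by
    rw [Finset.sum_comm]
    refine Finset.sum_le_sum fun a _ => sum_ite_le (hA a) fun i hi j hj h h' => ?_
    have := hgN a
    have := Finset.mem_range.1 hi
    have := Finset.mem_range.1 hj
    unfold Lo at h h'
    omega
  have e2 : ∑ k ∈ Finset.range N, ∑ a, (if Up N k (g a) then B a else 0) ≤ ∑ a, B a := by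
    rw [Finset.sum_comm]
    refine Finset.sum_le_sum fun a _ => sum_ite_le (hB a) fun i hi j hj h h' => ?_
    have := hgN a
    have := Finset.mem_range.1 hi
    have := Finset.mem_range.1 hj
    unfold Up at h h'
    omega
  have e3 : ∑ k ∈ Finset.range N,
      ∑ p ∈ Finset.univ.filter (fun p : Fin n × Fin n => ctc N g p),
        (if (Lo N k (g p.1) ∨ Up N k (g p.1)) ∧ (Lo N k (g p.2) ∨ Up N k (g p.2))
          then C else 0) ≤ C * (adjB N g : ℝ) := by
    rw [Finset.sum_comm]
    have e4 : ∑ p ∈ Finset.univ.filter (fun p : Fin n × Fin n => ctc N g p),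
        ∑ k ∈ Finset.range N,
        (if (Lo N k (g p.1) ∨ Up N k (g p.1)) ∧ (Lo N k (g p.2) ∨ Up N k (g p.2))
          then C else 0) ≤ ∑ p ∈ Finset.univ.filter (fun p : Fin n × Fin n => ctc N g p), C := by
      refine Finset.sum_le_sum fun p hp => sum_ite_le hC fun i hi j hj h h' => ?_
      have hp' := (Finset.mem_filter.1 hp).2
      have hcl := hcls p.1 p.2 hp'.1
      have := hgN p.1
      have := hgN p.2
      have := Finset.mem_range.1 hi
      have := Finset.mem_range.1 hj
      unfold Lo Up at h h'
      omega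
    refine e4.trans (le_of_eq ?_)
    rw [Finset.sum_const, nsmul_eq_mul, mul_comm]
    rfl
  rw [Finset.sum_add_distrib, Finset.sum_add_distrib] at h1
  unfold QQB
  linarith

end Pool.Agent.T2H73.SB
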