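import Pool.Agent.T2H73.SB.ConB
import Pool.Agent.T2H73.SB.RsB
import Pool.Agent.T2H73.SB.UpcB

/-!
# Signed order polytopes: from the lattice inequality to the Poincare inequality
-/

set_option autoImplicit false

namespace Pool.Agent.T2H73.SB

open MeasureTheory Set Filter Topology
open Pool.Agent.R972.OP (lp pd)

variable {n : ℕ}

theorem lv_inj {N : ℕ} {g : Fin n → ℕ} (h : Function.Injective (lv N g)) :
    Function.Injective g := by
  intro a b hab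
  have : lv N g (a, true) = lv N g (b, true) := by unfold lv; simpa using hab
  exact congrArg Prod.fst (h this)

theorem QQB_mono {N : ℕ} {R : Fin n × Bool → Fin n × Bool → Prop} {c c' : ℕ → ℝ}
    (F : (Fin n → ℕ) → ℝ) (h : ∀ k, k < N → c k ≤ c' k) (g : Fin n → ℕ) :
    QQB N R c F g ≤ QQB N R c' F g := by
  classical
  unfold QQB
  refine Finset.sum_le_sum fun k hk => ?_
  rw [Finset.mem_range] at hk
  split_ifs
  · exact mul_le_mul_of_nonneg_right (h k hk) (sq_nonneg _)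
  · exact le_rfl

theorem lp_mem {M : ℕ} (hM : 0 < M) {g : Fin n → ℕ} (hg : ∀ a, g a < M) :
    lp M g ∈ Icc (0 : Fin n → ℝ) 1 := by
  have hM' : (0 : ℝ) < M := by exact_mod_cast hM
  refine ⟨fun a => ?_, fun a => ?_⟩
  · show (0 : ℝ) ≤ (g a : ℝ) / M
    positivity
  · show (g a : ℝ) / M ≤ 1
    rw [div_le_one hM']
    exact_mod_cast (hg a).le

theorem contact_bd {f : (Fin n → ℝ) → ℝ} (hf : ContDiff ℝ 1 f) : ∃ C : ℝ, 0 ≤ C ∧
    ∀ (N k : ℕ) (g : Fin n → ℕ), 0 < N → k < N → (∀ a, g a < 2 * N) →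
      ((2 * N : ℕ) : ℝ) ^ 2 * (f (lp (2 * N) (mb N k (k + 1) g)) - f (lp (2 * N) g)) ^ 2 ≤ C := by
  have hcd : Continuous (fderiv ℝ f) := hf.continuous_fderiv (by norm_num)
  have hK : IsCompact (Icc (0 : Fin n → ℝ) 1) := isCompact_Icc
  obtain ⟨L, hL⟩ := hK.exists_bound_of_continuousOn hcd.continuousOn
  have hL0 : 0 ≤ L := le_trans (norm_nonneg _) (hL 0 ⟨le_refl _, zero_le_one⟩)
  refine ⟨L ^ 2, by positivity, fun N k g hN hk hg => ?_⟩
  have hM : 0 < 2 * N := by omega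
  have hM' : (0 : ℝ) < ((2 * N : ℕ) : ℝ) := by exact_mod_cast hM
  have h1 := lp_mem hM hg
  have h2 := lp_mem hM (mb_lt (N := N) hg (u := k) (v := k + 1) (by omega) (by omega))
  have h3 : ‖f (lp (2 * N) (mb N k (k + 1) g)) - f (lp (2 * N) g)‖ ≤
      L * ‖lp (2 * N) (mb N k (k + 1) g) - lp (2 * N) g‖ :=
    (convex_Icc (0 : Fin n → ℝ) 1).norm_image_sub_le_of_norm_fderiv_le
      (fun x _ => (hf.differentiable one_ne_zero).differentiableAt) hL h1 h2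
  have h4 : ‖lp (2 * N) (mb N k (k + 1) g) - lp (2 * N) g‖ ≤ 1 / ((2 * N : ℕ) : ℝ) := by
    rw [pi_norm_le_iff_of_nonneg (by positivity)]
    intro a
    have e : (lp (2 * N) (mb N k (k + 1) g) - lp (2 * N) g) a =
        ((mb N k (k + 1) g a : ℝ) - g a) / ((2 * N : ℕ) : ℝ) := by
      show (mb N k (k + 1) g a : ℝ) / ((2 * N : ℕ) : ℝ) - (g a : ℝ) / ((2 * N : ℕ) : ℝ) = _
      ring
    rw [e, Real.norm_eq_abs, abs_div, abs_of_pos hM', div_le_div_iff_of_pos_right hM', abs_le]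
    have hr : mb N k (k + 1) g a ≤ g a + 1 ∧ g a ≤ mb N k (k + 1) g a + 1 := by
      show rf N k (k + 1) (g a) ≤ g a + 1 ∧ g a ≤ rf N k (k + 1) (g a) + 1
      have := hg a
      unfold rf
      split_ifs <;> omega
    have hr1 : (mb N k (k + 1) g a : ℝ) ≤ g a + 1 := by exact_mod_cast hr.1
    have hr2 : (g a : ℝ) ≤ mb N k (k + 1) g a + 1 := by exact_mod_cast hr.2
    constructor <;> linarith
  have h5 : |f (lp (2 * N) (mb N k (k + 1) g)) - f (lp (2 * N) g)| ≤ L / ((2 * N : ℕ) : ℝ) := by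
    rw [← Real.norm_eq_abs]
    refine h3.trans ?_
    rw [div_eq_mul_one_div L]
    exact mul_le_mul_of_nonneg_left h4 hL0
  have h6 : (f (lp (2 * N) (mb N k (k + 1) g)) - f (lp (2 * N) g)) ^ 2 ≤
      (L / ((2 * N : ℕ) : ℝ)) ^ 2 := by
    rw [← sq_abs]
    exact pow_le_pow_left₀ (abs_nonneg _) h5 2
  calc ((2 * N : ℕ) : ℝ) ^ 2 * (f (lp (2 * N) (mb N k (k + 1) g)) - f (lp (2 * N) g)) ^ 2
      ≤ ((2 * N : ℕ) : ℝ) ^ 2 * (L / ((2 * N : ℕ) : ℝ)) ^ 2 :=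
        mul_le_mul_of_nonneg_left h6 (by positivity)
    _ = L ^ 2 := by field_simp

theorem limB (h1 : S_LATB) (h2 : S_RSB) (h3 : S_ADJB) {R : Fin n × Bool → Fin n × Bool → Prop}
    (hR : ∀ l, ¬ R l l) {f : (Fin n → ℝ) → ℝ} (hf : ContDiff ℝ 1 f) (ρ : ℕ → ℕ → ℝ)
    (E : (Fin n → ℝ) → ℝ) (hE : Continuous E)
    (h6 : ∀ N, 0 < N → ∃ W c : ℕ → ℝ, WO N W c ∧ ∀ k, k < N → c k ≤ ρ (2 * N) k)
    (hρ0 : ∀ M k, k + 1 < M → 0 ≤ ρ M k)
    (hsym : ∀ N k, k + 1 < 2 * N → ρ (2 * N) (2 * N - 2 - k) = ρ (2 * N) k)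
    (hρB : ∀ M k, k + 1 < M → ρ M k ≤ (M : ℝ) ^ 2) (err : ℕ → ℝ)
    (herr : Tendsto err atTop (𝓝 0))
    (hbd : ∀ (N : ℕ) (g : Fin n → ℕ), 0 < N → (∀ a, g a < N) → Function.Injective g →
      ∑ a, (if g a + 1 < N then
        ρ N (g a) * (f (lp N (Function.update g a (g a + 1))) - f (lp N g)) ^ 2 else 0) +
      ∑ a, (if 0 < g a then
        ρ N (g a - 1) * (f (lp N (Function.update g a (g a - 1))) - f (lp N g)) ^ 2 else 0) ≤
      E (lp N g) + err N) :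
    (volume (OPB R)).toReal * (∫ x in OPB R, f x ^ 2) - (∫ x in OPB R, f x) ^ 2 ≤
      (volume (OPB R)).toReal * (1 / 2 * ∫ x in OPB R, E x) := by
  classical
  obtain ⟨C, hC, hCb⟩ := contact_bd hf
  have hcf : Continuous f := hf.continuous
  have t1 := h2 n R hR (fun _ => (1 : ℝ)) continuous_const
  have tf := h2 n R hR f hcf
  have tf2 := h2 n R hR (fun x => f x ^ 2) (hcf.pow 2)
  have tG := h2 n R hR E hE
  have tA := h3 n R
  have h2N : Tendsto (fun N : ℕ => 2 * N) atTop atTop :=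
    tendsto_id.const_mul_atTop' (by norm_num)
  have herr2 : Tendsto (fun N : ℕ => err (2 * N)) atTop (𝓝 0) := herr.comp h2N
  have hvol : (∫ _x in OPB R, (1 : ℝ)) = (volume (OPB R)).toReal := by
    rw [setIntegral_const]
    simp [Measure.real]
  rw [hvol] at t1
  -- the limits of both sides
  have tL := (t1.mul tf2).sub (tf.pow 2)
  have tR := t1.mul (((tG.add (herr2.mul t1)).add (tA.const_mul C)).const_mul (1 / 2 : ℝ))
  have hlim : (volume (OPB R)).toReal * (1 / 2 * ((∫ x in OPB R, E x) +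
      0 * (volume (OPB R)).toReal + C * 0)) =
      (volume (OPB R)).toReal * (1 / 2 * ∫ x in OPB R, E x) := by ring
  rw [hlim] at tR
  refine le_of_tendsto_of_tendsto tL tR ?_
  filter_upwards [eventually_gt_atTop 0] with N hN
  have hM : 0 < 2 * N := by omega
  have hN0 : (0 : ℝ) < ((2 * N : ℕ) : ℝ) := by exact_mod_cast hM
  obtain ⟨Y, hY⟩ : ∃ Y : ℝ, Y = ((2 * N : ℕ) : ℝ) ^ n := ⟨_, rfl⟩
  have hYp : 0 < Y := by rw [hY]; positivity
  obtain ⟨W, c, wc, hcc⟩ := h6 N hN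
  have hlat := h1 n N R W c wc (fun g => f (lp (2 * N) g))
  have hQ : ∀ g ∈ cfgB N R, QQB N R c (fun g => f (lp (2 * N) g)) g ≤
      E (lp (2 * N) g) + err (2 * N) + C * (adjB N g : ℝ) := by
    intro g hg
    obtain ⟨hlt, hinj, -⟩ := mem_cfgB.1 hg
    refine (QQB_mono _ hcc g).trans ?_
    refine (upcB (c := ρ (2 * N)) (fun g => f (lp (2 * N) g)) (hρ0 (2 * N)) (hsym N) hg hC
      (fun k hk => ?_)).trans ?_
    · refine le_trans ?_ (hCb N k g hN hk hlt)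
      exact mul_le_mul_of_nonneg_right (hρB (2 * N) k (by omega)) (sq_nonneg _)
    · exact add_le_add (hbd (2 * N) g hM hlt (lv_inj hinj)) le_rfl
  have hsum : ∑ g ∈ cfgB N R, QQB N R c (fun g => f (lp (2 * N) g)) g ≤
      (∑ g ∈ cfgB N R, E (lp (2 * N) g)) + (cfgB N R).card * err (2 * N) +
        C * ∑ g ∈ cfgB N R, (adjB N g : ℝ) := by
    refine (Finset.sum_le_sum hQ).trans (le_of_eq ?_)
    rw [Finset.sum_add_distrib, Finset.sum_add_distrib, Finset.sum_const, nsmul_eq_mul,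
      Finset.mul_sum]
  have hfin : ((cfgB N R).card : ℝ) * ∑ g ∈ cfgB N R, f (lp (2 * N) g) ^ 2 -
      (∑ g ∈ cfgB N R, f (lp (2 * N) g)) ^ 2 ≤ (cfgB N R).card * (1 / 2 * (
        (∑ g ∈ cfgB N R, E (lp (2 * N) g)) +
        (cfgB N R).card * err (2 * N) + C * ∑ g ∈ cfgB N R, (adjB N g : ℝ))) := by
    refine hlat.trans ?_
    apply mul_le_mul_of_nonneg_left _ (Nat.cast_nonneg _)
    exact mul_le_mul_of_nonneg_left hsum (by norm_num)
  have hcard1 : (∑ _g ∈ cfgB N R, (1 : ℝ)) = (cfgB N R).card := by simp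
  show (∑ _g ∈ cfgB N R, (1 : ℝ)) / ((2 * N : ℕ) : ℝ) ^ n *
      ((∑ g ∈ cfgB N R, f (lp (2 * N) g) ^ 2) / ((2 * N : ℕ) : ℝ) ^ n) -
      ((∑ g ∈ cfgB N R, f (lp (2 * N) g)) / ((2 * N : ℕ) : ℝ) ^ n) ^ 2 ≤
    (∑ _g ∈ cfgB N R, (1 : ℝ)) / ((2 * N : ℕ) : ℝ) ^ n * (1 / 2 * (
      ((∑ g ∈ cfgB N R, E (lp (2 * N) g)) / ((2 * N : ℕ) : ℝ) ^ n) +
      err (2 * N) * ((∑ _g ∈ cfgB N R, (1 : ℝ)) / ((2 * N : ℕ) : ℝ) ^ n) +
        C * ((∑ g ∈ cfgB N R, (adjB N g : ℝ)) / ((2 * N : ℕ) : ℝ) ^ n)))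
  rw [hcard1, ← hY]
  have hl : ((cfgB N R).card : ℝ) / Y * ((∑ g ∈ cfgB N R, f (lp (2 * N) g) ^ 2) / Y) -
      ((∑ g ∈ cfgB N R, f (lp (2 * N) g)) / Y) ^ 2 =
      (((cfgB N R).card : ℝ) * ∑ g ∈ cfgB N R, f (lp (2 * N) g) ^ 2 -
      (∑ g ∈ cfgB N R, f (lp (2 * N) g)) ^ 2) / Y ^ 2 := by
    field_simp
  have hr : ((cfgB N R).card : ℝ) / Y * (1 / 2 * (
      ((∑ g ∈ cfgB N R, E (lp (2 * N) g)) / Y) +
      err (2 * N) * (((cfgB N R).card : ℝ) / Y) +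
        C * ((∑ g ∈ cfgB N R, (adjB N g : ℝ)) / Y))) =
      ((cfgB N R).card * (1 / 2 * ((∑ g ∈ cfgB N R, E (lp (2 * N) g)) +
        (cfgB N R).card * err (2 * N) + C * ∑ g ∈ cfgB N R, (adjB N g : ℝ)))) / Y ^ 2 := by
    field_simp
  rw [hl, hr]
  exact div_le_div_of_nonneg_right hfin (by positivity)

end Pool.Agent.T2H73.SB
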