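import Pool.Agent.T2H73.SB.Stm

/-!
# Signed order polytopes: the coupling
-/

set_option autoImplicit false

namespace Pool.Agent.T2H73.SB

variable {n N : ℕ} {R : Fin n × Bool → Fin n × Bool → Prop}

theorem rf_lt {u v x : ℕ} (hu : u < 2 * N) (hv : v < 2 * N) (hx : x < 2 * N) :
    rf N u v x < 2 * N := by
  unfold rf
  split_ifs <;> omega

theorem rf_mir {u v x : ℕ} (hu : u < 2 * N) (hv : v < 2 * N) (_huv : u ≠ v) (hx : x < 2 * N) :
    rf N u v (2 * N - 1 - x) = 2 * N - 1 - rf N u v x := by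
  unfold rf
  split_ifs <;> omega

theorem rf_rf {u v x : ℕ} (hu : u < 2 * N) (hv : v < 2 * N) (hx : x < 2 * N) :
    rf N u v (rf N u v x) = x := by
  unfold rf
  split_ifs <;> omega

theorem rf_inj {u v x y : ℕ} (hu : u < 2 * N) (hv : v < 2 * N) (hx : x < 2 * N) (hy : y < 2 * N)
    (h : rf N u v x = rf N u v y) : x = y := by
  have h1 := congrArg (rf N u v) h
  rwa [rf_rf hu hv hx, rf_rf hu hv hy] at h1

theorem rf_conj (r : ℕ → ℕ) (hlt : ∀ x, x < 2 * N → r x < 2 * N)
    (hinj : ∀ x y, x < 2 * N → y < 2 * N → r x = r y → x = y)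
    (hm : ∀ x, x < 2 * N → r (2 * N - 1 - x) = 2 * N - 1 - r x) {u v x : ℕ} (hu : u < 2 * N)
    (hv : v < 2 * N) (hx : x < 2 * N) :
    rf N (r u) (r v) (r x) = r (rf N u v x) := by
  by_cases h1 : x = u
  · subst h1
    simp [rf]
  have h1' : r x ≠ r u := fun h => h1 (hinj _ _ hx hu h)
  by_cases h2 : x = v
  · subst h2
    simp [rf, h1, h1']
  have h2' : r x ≠ r v := fun h => h2 (hinj _ _ hx hv h)
  have hru := hlt u hu
  have hrv := hlt v hv
  have hrx := hlt x hx
  have mu : 2 * N - 1 - u < 2 * N := by omega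
  have mv : 2 * N - 1 - v < 2 * N := by omega
  by_cases h3 : x + u + 1 = 2 * N
  · have hx' : x = 2 * N - 1 - u := by omega
    have h3' : r x + r u + 1 = 2 * N := by
      rw [hx', hm u hu]; omega
    have e1 : rf N u v x = 2 * N - 1 - v := by
      unfold rf; rw [if_neg h1, if_neg h2, if_pos h3]
    rw [e1, hm v hv]
    unfold rf
    rw [if_neg h1', if_neg h2', if_pos h3']
  have h3' : ¬ (r x + r u + 1 = 2 * N) := by
    intro h
    apply h3
    have : r x = r (2 * N - 1 - u) := by rw [hm u hu]; omega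
    have := hinj _ _ hx mu this
    omega
  by_cases h4 : x + v + 1 = 2 * N
  · have hx' : x = 2 * N - 1 - v := by omega
    have h4' : r x + r v + 1 = 2 * N := by
      rw [hx', hm v hv]; omega
    have e1 : rf N u v x = 2 * N - 1 - u := by
      unfold rf; rw [if_neg h1, if_neg h2, if_neg h3, if_pos h4]
    rw [e1, hm u hu]
    unfold rf
    rw [if_neg h1', if_neg h2', if_neg h3', if_pos h4']
  have h4' : ¬ (r x + r v + 1 = 2 * N) := by
    intro h
    apply h4
    have : r x = r (2 * N - 1 - v) := by rw [hm v hv]; omega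
    have := hinj _ _ hx mv this
    omega
  unfold rf
  rw [if_neg h1', if_neg h2', if_neg h3', if_neg h4', if_neg h1, if_neg h2, if_neg h3, if_neg h4]

theorem mem_cfgB {g : Fin n → ℕ} : g ∈ cfgB N R ↔
    (∀ a, g a < 2 * N) ∧ Function.Injective (lv N g) ∧ ∀ l m, R l m → lv N g l < lv N g m := by
  unfold cfgB
  simp only [Finset.mem_filter, Fintype.mem_piFinset, Finset.mem_range]

theorem lv_lt {g : Fin n → ℕ} (hg : ∀ a, g a < 2 * N) (l : Fin n × Bool) : lv N g l < 2 * N := by
  have := hg l.1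
  unfold lv
  split_ifs <;> omega

theorem lv_mb {g : Fin n → ℕ} (hg : ∀ a, g a < 2 * N) {u v : ℕ} (hu : u < 2 * N)
    (hv : v < 2 * N) (huv : u ≠ v) (l : Fin n × Bool) :
    lv N (mb N u v g) l = rf N u v (lv N g l) := by
  unfold lv mb
  by_cases h : l.2 = true
  · rw [if_pos h, if_pos h]
  · rw [if_neg h, if_neg h, rf_mir hu hv huv (hg l.1)]

theorem mb_mb {g : Fin n → ℕ} (hg : ∀ a, g a < 2 * N) {u v : ℕ} (hu : u < 2 * N)
    (hv : v < 2 * N) : mb N u v (mb N u v g) = g := by
  funext a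
  exact rf_rf hu hv (hg a)

theorem mb_lt {g : Fin n → ℕ} (hg : ∀ a, g a < 2 * N) {u v : ℕ} (hu : u < 2 * N)
    (hv : v < 2 * N) : ∀ a, mb N u v g a < 2 * N := fun a => rf_lt hu hv (hg a)

theorem mb_inj {g : Fin n → ℕ} (hg : ∀ a, g a < 2 * N) {u v : ℕ} (hu : u < 2 * N)
    (hv : v < 2 * N) (huv : u ≠ v) (h : Function.Injective (lv N g)) :
    Function.Injective (lv N (mb N u v g)) := by
  intro l m hlm
  rw [lv_mb hg hu hv huv, lv_mb hg hu hv huv] at hlm
  exact h (rf_inj hu hv (lv_lt hg l) (lv_lt hg m) hlm)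

theorem rf_mono {k x y : ℕ} (hk : k < N) (hxy : x < y) (hy : y < 2 * N) :
    rf N k (k + 1) x < rf N k (k + 1) y ↔
      ¬ ((x = k ∧ y = k + 1) ∨ (x + k + 2 = 2 * N ∧ y + k + 1 = 2 * N)) := by
  unfold rf
  split_ifs <;> omega

theorem mb_mem_iff {g : Fin n → ℕ} (hg : g ∈ cfgB N R) {k : ℕ} (hk : k < N) :
    mb N k (k + 1) g ∈ cfgB N R ↔ ∀ l m, R l m →
      ¬ ((lv N g l = k ∧ lv N g m = k + 1) ∨
        (lv N g l + k + 2 = 2 * N ∧ lv N g m + k + 1 = 2 * N)) := by
  obtain ⟨h1, h2, h3⟩ := mem_cfgB.mp hg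
  have hk1 : k < 2 * N := by omega
  have hk2 : k + 1 < 2 * N := by omega
  rw [mem_cfgB]
  constructor
  · rintro ⟨-, -, h⟩ l m hlm
    have := h l m hlm
    rw [lv_mb h1 hk1 hk2 (by omega), lv_mb h1 hk1 hk2 (by omega)] at this
    exact (rf_mono hk (h3 l m hlm) (lv_lt h1 m)).1 this
  · intro h
    refine ⟨mb_lt h1 hk1 hk2, mb_inj h1 hk1 hk2 (by omega) h2, fun l m hlm => ?_⟩
    rw [lv_mb h1 hk1 hk2 (by omega), lv_mb h1 hk1 hk2 (by omega)]
    exact (rf_mono hk (h3 l m hlm) (lv_lt h1 m)).2 (h l m hlm)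

/-- lower positions -/
def Lo (N k x : ℕ) : Prop := x = k ∨ x + k + 2 = 2 * N

/-- upper positions -/
def Up (N k x : ℕ) : Prop := x = k + 1 ∨ x + k + 1 = 2 * N

theorem Dval {W c : ℕ → ℝ} (hW : WO N W c) {k x : ℕ} (hk : k < N) (hx : x < 2 * N) :
    (Lo N k x → W (rf N k (k + 1) x) - W x = W (k + 1) - W k) ∧
    (Up N k x → W (rf N k (k + 1) x) - W x = -(W (k + 1) - W k)) ∧
    (¬ Lo N k x → ¬ Up N k x → W (rf N k (k + 1) x) - W x = 0) := by
  unfold Lo Up
  refine ⟨?_, ?_, ?_⟩
  · rintro (h | h)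
    · subst h
      have : rf N x (x + 1) x = x + 1 := by unfold rf; rw [if_pos rfl]
      rw [this]
    · by_cases hkN : x = k
      · subst hkN
        have : rf N x (x + 1) x = x + 1 := by unfold rf; rw [if_pos rfl]
        rw [this]
      · have e1 : rf N k (k + 1) x = 2 * N - 1 - k := by
          unfold rf; split_ifs <;> omega
        have e2 : x = 2 * N - 1 - (k + 1) := by omega
        rw [e1, hW.odd k (by omega), e2, hW.odd (k + 1) (by omega)]
        ring
  · rintro (h | h)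
    · subst h
      have : rf N k (k + 1) (k + 1) = k := by unfold rf; split_ifs <;> omega
      rw [this]; ring
    · by_cases hkN : x = k + 1
      · subst hkN
        have : rf N k (k + 1) (k + 1) = k := by unfold rf; split_ifs <;> omega
        rw [this]; ring
      · have e1 : rf N k (k + 1) x = 2 * N - 1 - (k + 1) := by
          unfold rf; split_ifs <;> omega
        have e2 : x = 2 * N - 1 - k := by omega
        rw [e1, hW.odd (k + 1) (by omega), e2, hW.odd k (by omega)]
        ring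
  · intro h1 h2
    have e1 : rf N k (k + 1) x = x := by
      unfold rf; split_ifs <;> omega
    rw [e1, sub_self]

theorem inv_of_neg {u v k : ℕ} (huv : u < v) (hv : v < 2 * N) (hk : k < N)
    (h : (Lo N k u ∧ ¬ Lo N k v) ∨ (Up N k v ∧ ¬ Up N k u))
    (h1 : ¬ (u = k ∧ v = k + 1)) (h2 : ¬ (u + k + 2 = 2 * N ∧ v + k + 1 = 2 * N)) :
    rf N u v (k + 1) < rf N u v k := by
  unfold Lo Up at h
  unfold rf
  split_ifs <;> omega

theorem fix_of_zero {u v k : ℕ} (huv : u < v) (hv : v < 2 * N) (hk : k < N)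
    (h : (Lo N k u ∧ Lo N k v) ∨ (Up N k v ∧ Up N k u) ∨
      (¬ Lo N k u ∧ ¬ Lo N k v ∧ ¬ Up N k u ∧ ¬ Up N k v)) :
    (rf N u v k = k ∧ rf N u v (k + 1) = k + 1) ∨
      (rf N u v k + k + 2 = 2 * N ∧ rf N u v (k + 1) + k + 1 = 2 * N) := by
  unfold Lo Up at h
  unfold rf
  split_ifs <;> omega

theorem rf_simp {u v k x : ℕ} (hk : k < N)
    (h : (u = k ∧ v = k + 1) ∨ (u + k + 2 = 2 * N ∧ v + k + 1 = 2 * N)) :
    rf N k (k + 1) x = rf N u v x := by
  rcases h with ⟨h1, h2⟩ | ⟨h1, h2⟩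
  · rw [h1, h2]
  · have h1' : u = 2 * N - 2 - k := by omega
    have h2' : v = 2 * N - 1 - k := by omega
    subst h1' h2'
    unfold rf
    split_ifs <;> omega

theorem t_PTB : S_PTB := by
  intro n N R W c F M hW hM hF s hs u v huv hvN ht hD k hk
  have huN : u < 2 * N := huv.trans hvN
  have hk1 : k < 2 * N := by omega
  have hk2 : k + 1 < 2 * N := by omega
  have hkk : k ≠ k + 1 := by omega
  have hδ : 0 < W (k + 1) - W k := sub_pos.2 (hW.mono k hk2)
  have hck := hW.nonneg k hk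
  have hsc := mem_cfgB.mp hs
  have htc := mem_cfgB.mp ht
  have hs3 := hsc.2.2
  have ht3 := htc.2.2
  have lvT : ∀ l, lv N (mb N u v s) l = rf N u v (lv N s l) :=
    lv_mb hsc.1 huN hvN huv.ne
  obtain ⟨Du, Du', Du''⟩ := Dval hW hk huN
  obtain ⟨Dv, Dv', Dv''⟩ := Dval hW hk hvN
  have hrlt : ∀ x, x < 2 * N → rf N k (k + 1) x < 2 * N := fun x hx => rf_lt hk1 hk2 hx
  have hrinj : ∀ x y, x < 2 * N → y < 2 * N → rf N k (k + 1) x = rf N k (k + 1) y → x = y :=
    fun x y hx hy h => rf_inj hk1 hk2 hx hy h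
  -- both moves allowed
  have both : rf N k (k + 1) u < rf N k (k + 1) v → mb N k (k + 1) s ∈ cfgB N R →
      mb N k (k + 1) (mb N u v s) ∈ cfgB N R →
      c k * (F (mb N k (k + 1) (mb N u v s)) - F (mb N u v s)) -
        c k * (F (mb N k (k + 1) s) - F s)
        ≤ M * (c k * ((W (rf N k (k + 1) v) - W v) - (W (rf N k (k + 1) u) - W u))) := by
    intro hlt h1 h2
    have e : mb N (rf N k (k + 1) u) (rf N k (k + 1) v) (mb N k (k + 1) s) =
        mb N k (k + 1) (mb N u v s) := by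
      funext a
      exact rf_conj (rf N k (k + 1)) hrlt hrinj
        (fun x hx => rf_mir hk1 hk2 hkk hx) huN hvN (hsc.1 a)
    have h3 : mb N (rf N k (k + 1) u) (rf N k (k + 1) v) (mb N k (k + 1) s) ∈ cfgB N R := by
      rw [e]; exact h2
    have h4 := (abs_le.mp (hF _ h1 _ _ hlt (hrlt v hvN) h3)).2
    rw [e] at h4
    have h5 : c k * ((F (mb N k (k + 1) (mb N u v s)) - F (mb N k (k + 1) s)) -
        (F (mb N u v s) - F s))
        ≤ c k * (M * (W (rf N k (k + 1) v) - W (rf N k (k + 1) u)) - M * (W v - W u)) :=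
      mul_le_mul_of_nonneg_left (by rw [hD]; linarith) hck
    linarith
  -- one move allowed
  have one_t : mb N k (k + 1) (mb N u v s) ∈ cfgB N R →
      c k * (F (mb N k (k + 1) (mb N u v s)) - F (mb N u v s)) ≤
        M * (c k * (W (k + 1) - W k)) := by
    intro h
    have h4 := (abs_le.mp (hF _ ht k (k + 1) (Nat.lt_succ_self k) hk2 h)).2
    have := mul_le_mul_of_nonneg_left h4 hck
    linarith
  have one_s : mb N k (k + 1) s ∈ cfgB N R →
      - (c k * (F (mb N k (k + 1) s) - F s)) ≤ M * (c k * (W (k + 1) - W k)) := by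
    intro h
    have h4 := (abs_le.mp (hF _ hs k (k + 1) (Nat.lt_succ_self k) hk2 h)).1
    have := mul_le_mul_of_nonneg_left h4 hck
    linarith
  -- order of the reflected pair
  have rlt : ¬ (u = k ∧ v = k + 1) → ¬ (u + k + 2 = 2 * N ∧ v + k + 1 = 2 * N) →
      rf N k (k + 1) u < rf N k (k + 1) v := by
    intro h1 h2
    exact (rf_mono hk huv hvN).2 (fun h => h.elim h1 h2)
  have hMc : 0 ≤ M * (c k * (W (k + 1) - W k)) := mul_nonneg hM (mul_nonneg hck hδ.le)
  unfold ttB
  -- the reflection itself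
  by_cases hsimp : (u = k ∧ v = k + 1) ∨ (u + k + 2 = 2 * N ∧ v + k + 1 = 2 * N)
  · have e : mb N k (k + 1) s = mb N u v s := by
      funext a
      exact rf_simp hk hsimp
    have e2 : mb N k (k + 1) (mb N u v s) = s := by
      rw [← e]
      exact mb_mb hsc.1 hk1 hk2
    have hu : Lo N k u := hsimp.elim (fun h => Or.inl h.1) fun h => Or.inr h.1
    have hv : Up N k v := hsimp.elim (fun h => Or.inl h.2) fun h => Or.inr h.2
    have hd : W v - W u = W (k + 1) - W k := by
      rcases hsimp with ⟨h1, h2⟩ | ⟨h1, h2⟩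
      · rw [h1, h2]
      · have e3 : u = 2 * N - 1 - (k + 1) := by omega
        have e4 : v = 2 * N - 1 - k := by omega
        rw [e3, e4, hW.odd _ hk1, hW.odd _ hk2]
        ring
    rw [e2, e, if_pos hs, if_pos ht, Du hu, Dv' hv]
    have e5 : c k * (F (mb N u v s) - F s) = c k * (M * (W (k + 1) - W k)) := by rw [hD, hd]
    linarith
  obtain ⟨hs1, hs2⟩ := not_or.1 hsimp
  have hlt := rlt hs1 hs2
  -- negative case
  by_cases hneg : (Lo N k u ∧ ¬ Lo N k v) ∨ (Up N k v ∧ ¬ Up N k u)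
  · have hinv := inv_of_neg huv hvN hk hneg hs1 hs2
    have hTk : rf N u v (2 * N - 2 - k) = 2 * N - 1 - rf N u v (k + 1) := by
      have := rf_mir huN hvN huv.ne hk2
      rw [← this]
      congr 1
      omega
    have hTk' : rf N u v (2 * N - 1 - k) = 2 * N - 1 - rf N u v k := rf_mir huN hvN huv.ne hk1
    have b1 := rf_lt (N := N) huN hvN hk1
    have b2 := rf_lt (N := N) huN hvN hk2
    have h2 : mb N k (k + 1) s ∈ cfgB N R := by
      rw [mb_mem_iff hs hk]
      intro l m hlm hcon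
      have := ht3 l m hlm
      rw [lvT, lvT] at this
      rcases hcon with ⟨h3, h4⟩ | ⟨h3, h4⟩
      · rw [h3, h4] at this
        omega
      · have h3' : lv N s l = 2 * N - 2 - k := by omega
        have h4' : lv N s m = 2 * N - 1 - k := by omega
        rw [h3', h4', hTk, hTk'] at this
        omega
    have h1 : mb N k (k + 1) (mb N u v s) ∈ cfgB N R := by
      rw [mb_mem_iff ht hk]
      intro l m hlm hcon
      have := hs3 l m hlm
      rw [lvT, lvT] at hcon
      have i1 := rf_rf (N := N) huN hvN (lv_lt hsc.1 l)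
      have i2 := rf_rf (N := N) huN hvN (lv_lt hsc.1 m)
      rcases hcon with ⟨h3, h4⟩ | ⟨h3, h4⟩
      · rw [h3] at i1
        rw [h4] at i2
        omega
      · have h3' : rf N u v (lv N s l) = 2 * N - 2 - k := by omega
        have h4' : rf N u v (lv N s m) = 2 * N - 1 - k := by omega
        rw [h3', hTk] at i1
        rw [h4', hTk'] at i2
        omega
    rw [if_pos h1, if_pos h2]
    exact both hlt h2 h1
  -- zero case
  by_cases hzero : (Lo N k u ∧ Lo N k v) ∨ (Up N k v ∧ Up N k u) ∨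
      (¬ Lo N k u ∧ ¬ Lo N k v ∧ ¬ Up N k u ∧ ¬ Up N k v)
  · have hfix := fix_of_zero huv hvN hk hzero
    have hTk : rf N u v (2 * N - 2 - k) = 2 * N - 1 - rf N u v (k + 1) := by
      have := rf_mir huN hvN huv.ne hk2
      rw [← this]
      congr 1
      omega
    have hTk' : rf N u v (2 * N - 1 - k) = 2 * N - 1 - rf N u v k := rf_mir huN hvN huv.ne hk1
    have b1 := rf_lt (N := N) huN hvN hk1
    have b2 := rf_lt (N := N) huN hvN hk2
    have key : ∀ x y, x < 2 * N → y < 2 * N →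
        (((x = k ∧ y = k + 1) ∨ (x + k + 2 = 2 * N ∧ y + k + 1 = 2 * N)) ↔
        ((rf N u v x = k ∧ rf N u v y = k + 1) ∨
          (rf N u v x + k + 2 = 2 * N ∧ rf N u v y + k + 1 = 2 * N))) := by
      have key1 : ∀ x y, x < 2 * N → y < 2 * N →
          ((x = k ∧ y = k + 1) ∨ (x + k + 2 = 2 * N ∧ y + k + 1 = 2 * N)) →
          ((rf N u v x = k ∧ rf N u v y = k + 1) ∨
          (rf N u v x + k + 2 = 2 * N ∧ rf N u v y + k + 1 = 2 * N)) := by
        intro x y hx hy h
        rcases h with ⟨h3, h4⟩ | ⟨h3, h4⟩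
        · rw [h3, h4]
          exact hfix
        · have h3' : x = 2 * N - 2 - k := by omega
          have h4' : y = 2 * N - 1 - k := by omega
          rw [h3', h4', hTk, hTk']
          omega
      intro x y hx hy
      refine ⟨key1 x y hx hy, fun h => ?_⟩
      have := key1 _ _ (rf_lt huN hvN hx) (rf_lt huN hvN hy) h
      rwa [rf_rf huN hvN hx, rf_rf huN hvN hy] at this
    have hiff : mb N k (k + 1) (mb N u v s) ∈ cfgB N R ↔ mb N k (k + 1) s ∈ cfgB N R := by
      rw [mb_mem_iff ht hk, mb_mem_iff hs hk]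
      constructor
      · intro h l m hlm hcon
        refine h l m hlm ?_
        rw [lvT, lvT]
        exact (key _ _ (lv_lt hsc.1 l) (lv_lt hsc.1 m)).1 hcon
      · intro h l m hlm hcon
        refine h l m hlm ?_
        rw [lvT, lvT] at hcon
        exact (key _ _ (lv_lt hsc.1 l) (lv_lt hsc.1 m)).2 hcon
    by_cases h2 : mb N k (k + 1) s ∈ cfgB N R
    · have h1 := hiff.mpr h2
      rw [if_pos h1, if_pos h2]
      exact both hlt h2 h1
    · have h1 := fun h => h2 (hiff.mp h)
      rw [if_neg h1, if_neg h2]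
      have hz : (W (rf N k (k + 1) v) - W v) - (W (rf N k (k + 1) u) - W u) = 0 := by
        rcases hzero with ⟨a1, a2⟩ | ⟨a1, a2⟩ | ⟨a1, a2, a3, a4⟩
        · rw [Du a1, Dv a2]; ring
        · rw [Du' a2, Dv' a1]; ring
        · rw [Du'' a1 a3, Dv'' a2 a4]; ring
      rw [hz]
      linarith
  -- positive case
  have hpos : W (k + 1) - W k ≤
      (W (rf N k (k + 1) v) - W v) - (W (rf N k (k + 1) u) - W u) := by
    have hdis : ∀ x, Lo N k x → ¬ Up N k x := by
      intro x h1 h2
      unfold Lo Up at *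
      omega
    by_cases a1 : Lo N k u
    · have := hdis u a1
      by_cases a2 : Lo N k v
      · exact absurd (Or.inl ⟨a1, a2⟩) hzero
      · exact absurd (Or.inl ⟨a1, a2⟩) hneg
    · by_cases a3 : Up N k u
      · by_cases a2 : Lo N k v
        · rw [Du' a3, Dv a2]; linarith
        · by_cases a4 : Up N k v
          · exact absurd (Or.inr (Or.inl ⟨a4, a3⟩)) hzero
          · rw [Du' a3, Dv'' a2 a4]; linarith
      · by_cases a4 : Up N k v
        · exact absurd (Or.inr ⟨a4, a3⟩) hneg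
        · by_cases a2 : Lo N k v
          · rw [Du'' a1 a3, Dv a2]; linarith
          · exact absurd (Or.inr (Or.inr ⟨a1, a2, a3, a4⟩)) hzero
  have hpos' : M * (c k * (W (k + 1) - W k)) ≤
      M * (c k * ((W (rf N k (k + 1) v) - W v) - (W (rf N k (k + 1) u) - W u))) :=
    mul_le_mul_of_nonneg_left (mul_le_mul_of_nonneg_left hpos hck) hM
  by_cases h1 : mb N k (k + 1) (mb N u v s) ∈ cfgB N R
  · by_cases h2 : mb N k (k + 1) s ∈ cfgB N R
    · rw [if_pos h1, if_pos h2]
      exact both hlt h2 h1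
    · rw [if_pos h1, if_neg h2]
      have := one_t h1
      linarith
  · by_cases h2 : mb N k (k + 1) s ∈ cfgB N R
    · rw [if_neg h1, if_pos h2]
      have := one_s h2
      linarith
    · rw [if_neg h1, if_neg h2]
      linarith

end Pool.Agent.T2H73.SB
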