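import Pool.Agent.R972.OP.Stm2

/-!
# Signed order polytopes: definitions and statements

The uniform measure on the polytope `{x ∈ [0,1]ⁿ | v x l ≤ v x m if R l m}`, `l, m` literals,
`v x (a, true) = x a`, `v x (a, false) = 1 - x a`, as the limit of the uniform measures on the
placements `cfgB N R` of the labels on `2 N` positions, for which the Poincare inequality is proved by
a path coupling with the reflections of the hyperoctahedral group.
-/

set_option autoImplicit false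

namespace Pool.Agent.T2H73.SB

open MeasureTheory Set Filter Topology
open Pool.Agent.R972.OP (lp pd cb S_LA)

section

variable {n : ℕ}

/-! ### placements of the labels on the positions `0, ..., 2 N - 1` -/

/-- position of a literal -/
def lv (N : ℕ) (g : Fin n → ℕ) (l : Fin n × Bool) : ℕ :=
  if l.2 = true then g l.1 else 2 * N - 1 - g l.1

/-- the negation of a literal -/
def ng (l : Fin n × Bool) : Fin n × Bool := (l.1, !l.2)

/-- reflection which exchanges the positions `u` and `v`, and their mirror images -/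
def rf (N u v x : ℕ) : ℕ :=
  if x = u then v else if x = v then u else if x + u + 1 = 2 * N then 2 * N - 1 - v else
    if x + v + 1 = 2 * N then 2 * N - 1 - u else x

/-- reflection of a placement -/
def mb (N u v : ℕ) (g : Fin n → ℕ) : Fin n → ℕ := fun a => rf N u v (g a)

open Classical in
/-- admissible placements -/
noncomputable def cfgB (N : ℕ) (R : Fin n × Bool → Fin n × Bool → Prop) : Finset (Fin n → ℕ) :=
  (Fintype.piFinset fun _ => Finset.range (2 * N)).filter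
    fun g => Function.Injective (lv N g) ∧ ∀ l m, R l m → lv N g l < lv N g m

open Classical in
/-- contribution of the reflection at `k`, `k + 1` to the generator -/
noncomputable def ttB (N : ℕ) (R : Fin n × Bool → Fin n × Bool → Prop) (c : ℕ → ℝ)
    (F : (Fin n → ℕ) → ℝ) (g : Fin n → ℕ) (k : ℕ) : ℝ :=
  if mb N k (k + 1) g ∈ cfgB N R then c k * (F (mb N k (k + 1) g) - F g) else 0

/-- generator -/
noncomputable def LLB (N : ℕ) (R : Fin n × Bool → Fin n × Bool → Prop) (c : ℕ → ℝ)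
    (F : (Fin n → ℕ) → ℝ) (g : Fin n → ℕ) : ℝ := ∑ k ∈ Finset.range N, ttB N R c F g k

open Classical in
/-- local energy -/
noncomputable def QQB (N : ℕ) (R : Fin n × Bool → Fin n × Bool → Prop) (c : ℕ → ℝ)
    (F : (Fin n → ℕ) → ℝ) (g : Fin n → ℕ) : ℝ := ∑ k ∈ Finset.range N,
  if mb N k (k + 1) g ∈ cfgB N R then c k * (F (mb N k (k + 1) g) - F g) ^ 2 else 0

/-- value of a literal -/
noncomputable def vl (x : Fin n → ℝ) (l : Fin n × Bool) : ℝ :=
  if l.2 = true then x l.1 else 1 - x l.1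

/-- signed order polytope -/
def OPB (R : Fin n × Bool → Fin n × Bool → Prop) : Set (Fin n → ℝ) :=
  {x | (∀ i, 0 ≤ x i ∧ x i ≤ 1) ∧ ∀ l m, R l m → vl x l ≤ vl x m}

/-- ordered pairs of labels in contact -/
def ctc (N : ℕ) (g : Fin n → ℕ) (p : Fin n × Fin n) : Prop :=
  p.1 ≠ p.2 ∧ (g p.2 = g p.1 + 1 ∨ g p.1 + g p.2 + 2 = 2 * N ∨ g p.1 + g p.2 = 2 * N)

open Classical in
/-- number of ordered pairs of labels in contact -/
noncomputable def adjB (N : ℕ) (g : Fin n → ℕ) : ℕ :=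
  (Finset.univ.filter fun p : Fin n × Fin n => ctc N g p).card

end

/-- increasing odd `W` and rates `c` with
`c_j (W_{j+1} - W_j) - c_{j-1} (W_j - W_{j-1}) = - W_j` for `j < N` -/
structure WO (N : ℕ) (W c : ℕ → ℝ) : Prop where
  mono : ∀ k, k + 1 < 2 * N → W k < W (k + 1)
  odd : ∀ k, k < 2 * N → W (2 * N - 1 - k) = -W k
  nonneg : ∀ k, k < N → 0 ≤ c k
  eq : ∀ j, j < N → c j * (W (j + 1) - W j) -
    (if 0 < j then c (j - 1) * (W j - W (j - 1)) else 0) = -W j

/-- SB-PT: coupling, one exchange -/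
def S_PTB : Prop := ∀ (n N : ℕ) (R : Fin n × Bool → Fin n × Bool → Prop) (W c : ℕ → ℝ)
  (F : (Fin n → ℕ) → ℝ) (M : ℝ), WO N W c → 0 ≤ M →
  (∀ g ∈ cfgB N R, ∀ u v, u < v → v < 2 * N → mb N u v g ∈ cfgB N R →
    |F (mb N u v g) - F g| ≤ M * (W v - W u)) →
  ∀ s ∈ cfgB N R, ∀ u v, u < v → v < 2 * N → mb N u v s ∈ cfgB N R →
  F (mb N u v s) - F s = M * (W v - W u) → ∀ k, k < N →
  ttB N R c F (mb N u v s) k - ttB N R c F s k ≤ M * (c k *
    ((W (rf N k (k + 1) v) - W v) - (W (rf N k (k + 1) u) - W u)))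

/-- SB-CON: eigenvalues of nonconstant eigenfunctions are at least one -/
def S_CONB : Prop := ∀ (n N : ℕ) (R : Fin n × Bool → Fin n × Bool → Prop) (W c : ℕ → ℝ) (lam : ℝ)
  (F : (Fin n → ℕ) → ℝ), WO N W c → (∀ g ∈ cfgB N R, LLB N R c F g = -lam * F g) →
  (∃ g ∈ cfgB N R, ∃ k, k < N ∧ mb N k (k + 1) g ∈ cfgB N R ∧ F (mb N k (k + 1) g) ≠ F g) →
  1 ≤ lam

/-- SB-CONN: connectivity -/
def S_CONNB : Prop := ∀ (n N : ℕ) (R : Fin n × Bool → Fin n × Bool → Prop)
  (F : (Fin n → ℕ) → ℝ),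
  (∀ g ∈ cfgB N R, ∀ k, k < N → mb N k (k + 1) g ∈ cfgB N R → F (mb N k (k + 1) g) = F g) →
  ∀ g ∈ cfgB N R, ∀ h ∈ cfgB N R, F g = F h

/-- SB-LAT: the lattice inequality -/
def S_LATB : Prop := ∀ (n N : ℕ) (R : Fin n × Bool → Fin n × Bool → Prop) (W c : ℕ → ℝ),
  WO N W c → ∀ F : (Fin n → ℕ) → ℝ, ((cfgB N R).card : ℝ) * ∑ g ∈ cfgB N R, F g ^ 2 -
    (∑ g ∈ cfgB N R, F g) ^ 2 ≤ (cfgB N R).card * (1 / 2 * ∑ g ∈ cfgB N R, QQB N R c F g)

/-- SB-RS: Riemann sums -/
def S_RSB : Prop := ∀ (n : ℕ) (R : Fin n × Bool → Fin n × Bool → Prop), (∀ l, ¬ R l l) →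
  ∀ G : (Fin n → ℝ) → ℝ, Continuous G →
  Tendsto (fun N : ℕ => (∑ g ∈ cfgB N R, G (lp (2 * N) g)) / ((2 * N : ℕ) : ℝ) ^ n) atTop
    (𝓝 (∫ x in OPB R, G x))

/-- SB-ADJ: few placements have labels in contact -/
def S_ADJB : Prop := ∀ (n : ℕ) (R : Fin n × Bool → Fin n × Bool → Prop),
  Tendsto (fun N : ℕ => (∑ g ∈ cfgB N R, (adjB N g : ℝ)) / ((2 * N : ℕ) : ℝ) ^ n) atTop (𝓝 0)


end Pool.Agent.T2H73.SB
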