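import Pool.Agent.T2H73.SB.SymB
import Pool.Agent.T2H73.SB.AllB

/-!
# Signed order polytopes: the variance of the squared distance to the centre
-/

set_option autoImplicit false

namespace Pool.Agent.T2H73.SB

open MeasureTheory Set Filter Topology ProbabilityTheory
open Pool.Agent.R972.OP (OPp)
open Pool.Agent.R372.OP.MOM (nu rest)
open Pool.Agent.W695.KH (Eu EU EV VV Sm Pot Uu)

variable {n : ℕ}

theorem q1 : ∫ t, (t - 1 / 2) ^ 2 ∂nu = 1 / 12 := by
  unfold nu
  rw [integral_Icc_eq_integral_Ioc, ← intervalIntegral.integral_of_le zero_le_one,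
    intervalIntegral.integral_comp_sub_right (fun t : ℝ => t ^ 2) (1 / 2), integral_pow]
  norm_num

theorem q2 : ∫ t, (t - 1 / 2) ^ 4 ∂nu = 1 / 80 := by
  unfold nu
  rw [integral_Icc_eq_integral_Ioc, ← intervalIntegral.integral_of_le zero_le_one,
    intervalIntegral.integral_comp_sub_right (fun t : ℝ => t ^ 4) (1 / 2), integral_pow]
  norm_num

theorem qmem : MemLp (fun t : ℝ => (t - 1 / 2) ^ 2) 2 nu := by
  apply MemLp.of_bound (by fun_prop) 1
  unfold nu
  filter_upwards [ae_restrict_mem measurableSet_Icc] with t ht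
  rw [Real.norm_eq_abs, abs_le]
  constructor <;> nlinarith [ht.1, ht.2]

theorem qvar : Var[fun t : ℝ => (t - 1 / 2) ^ 2; nu] = 1 / 180 := by
  rw [variance_eq_sub qmem]
  have h1 := q1
  have h2 : ∫ t, ((fun t : ℝ => (t - 1 / 2) ^ 2) ^ 2) t ∂nu = 1 / 80 := by
    rw [← q2]
    refine integral_congr_ae (Eventually.of_forall fun t => ?_)
    simp only [Pi.pow_apply]
    ring
  rw [h1, h2]
  norm_num

theorem qmean (n : ℕ) : ∫ x : Fin n → ℝ, ∑ i, (x i - 1 / 2) ^ 2 ∂(Measure.pi (fun _ => nu)) =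
    (n : ℝ) / 12 := by
  rw [integral_finsetSum]
  · have h : ∀ i : Fin n, ∫ x : Fin n → ℝ, (x i - 1 / 2) ^ 2 ∂(Measure.pi (fun _ => nu)) =
        1 / 12 := by
      intro i
      rw [integral_comp_eval (μ := fun _ : Fin n => nu) (i := i) (f := fun t => (t - 1 / 2) ^ 2)
        (by fun_prop)]
      exact q1
    rw [Finset.sum_congr rfl (fun i _ => h i)]
    simp
    ring
  · intro i _
    have h := qmem.integrable one_le_two
    exact integrable_comp_eval (μ := fun _ : Fin n => nu) (i := i) h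

theorem qmemn (n : ℕ) : MemLp (∑ i : Fin n, fun x : Fin n → ℝ => (x i - 1 / 2) ^ 2) 2
    (Measure.pi (fun _ => nu)) := by
  apply memLp_finsetSum'
  intro i _
  exact qmem.comp_measurePreserving (measurePreserving_eval (fun _ : Fin n => nu) i)

theorem momB (n : ℕ) :
    (∫ x in OPp (fun _ _ : Fin n => False), ∑ i, (x i - 1 / 2) ^ 2 = (n : ℝ) / 12) ∧
    (∫ x in OPp (fun _ _ : Fin n => False), (∑ i, (x i - 1 / 2) ^ 2) ^ 2 =
      (n : ℝ) / 180 + ((n : ℝ) / 12) ^ 2) := by
  rw [rest]
  have e1 := qmean n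
  refine ⟨e1, ?_⟩
  have h := variance_sum_pi (μ := fun _ : Fin n => nu) (X := fun _ t => (t - 1 / 2) ^ 2)
    (fun _ => qmem)
  have hv := variance_eq_sub (qmemn n)
  rw [h] at hv
  have e2 : ∑ i : Fin n, Var[fun t : ℝ => (t - 1 / 2) ^ 2; nu] = (n : ℝ) / 180 := by
    rw [qvar]; simp; ring
  rw [e2] at hv
  have e3 : ∫ x : Fin n → ℝ, (∑ i : Fin n, fun x : Fin n → ℝ => (x i - 1 / 2) ^ 2) x
      ∂(Measure.pi (fun _ => nu)) = (n : ℝ) / 12 := by
    rw [← e1]
    apply integral_congr_ae
    refine Eventually.of_forall fun x => ?_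
    simp
  rw [e3] at hv
  have e4 : ∫ x : Fin n → ℝ, ((∑ i : Fin n, fun x : Fin n → ℝ => (x i - 1 / 2) ^ 2) ^ 2) x
      ∂(Measure.pi (fun _ => nu)) =
      ∫ x : Fin n → ℝ, (∑ i : Fin n, (x i - 1 / 2) ^ 2) ^ 2 ∂(Measure.pi (fun _ => nu)) := by
    apply integral_congr_ae
    refine Eventually.of_forall fun x => ?_
    simp
  rw [e4] at hv
  linarith [hv]

/-- the cube with centre `0` -/
def Qc (n : ℕ) : Set (Fin n → ℝ) := {x | ∀ i, |x i| ≤ 1 / 2}

theorem OPB_shift (R : Fin n × Bool → Fin n × Bool → Prop) (x : Fin n → ℝ) :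
    (fun i => x i + 1 / 2) ∈ OPB R ↔ x ∈ CB R ∧ x ∈ Qc n := by
  have hv : ∀ l, vl (fun i => x i + 1 / 2) l = sv x l + 1 / 2 := by
    intro l
    unfold vl sv sg
    split_ifs <;> ring
  unfold OPB CB Qc
  simp only [mem_ofPred_eq, hv]
  constructor
  · rintro ⟨h1, h2⟩
    refine ⟨fun l m hlm => by have := h2 l m hlm; linarith, fun i => ?_⟩
    have := h1 i
    rw [abs_le]
    constructor <;> linarith
  · rintro ⟨h1, h2⟩
    refine ⟨fun i => ?_, fun l m hlm => by have := h1 l m hlm; linarith⟩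
    have := abs_le.1 (h2 i)
    constructor <;> linarith

theorem isCompact_Qc : IsCompact (Qc n) := by
  have e : Qc n = univ.pi fun _ => Icc (-(1 / 2 : ℝ)) (1 / 2) := by
    ext x
    rw [mem_univ_pi]
    exact forall_congr' fun i => abs_le
  rw [e]
  exact isCompact_univ_pi fun _ => isCompact_Icc

/-- integrals over a signed order polytope -/
theorem int_shift (R : Fin n × Bool → Fin n × Bool → Prop) (G : (Fin n → ℝ) → ℝ) :
    ∫ x in OPB R, G x = ∫ x in CB R, (Qc n).indicator (fun y => G fun i => y i + 1 / 2) x := by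
  have h1 : ∫ x in OPB R, G x = ∫ x : Fin n → ℝ, (OPB R).indicator G x :=
    (integral_indicator (isClosed_OPB R).measurableSet).symm
  have h2 : ∫ x : Fin n → ℝ, (OPB R).indicator G x =
      ∫ x : Fin n → ℝ, (OPB R).indicator G (x + fun _ => 1 / 2) :=
    (integral_add_right_eq_self (μ := (volume : Measure (Fin n → ℝ)))
      (fun x => (OPB R).indicator G x) _).symm
  rw [h1, h2, ← integral_indicator (isClosed_CB R).measurableSet]
  refine integral_congr_ae (Eventually.of_forall fun x => ?_)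
  have e : (x + fun _ => 1 / 2) = fun i => x i + 1 / 2 := rfl
  simp only
  rw [e]
  by_cases h : (fun i => x i + 1 / 2) ∈ OPB R
  · obtain ⟨h3, h4⟩ := (OPB_shift R x).1 h
    rw [indicator_of_mem h, indicator_of_mem h3, indicator_of_mem h4]
  · rw [indicator_of_notMem h]
    by_cases h3 : x ∈ CB R
    · have h4 : x ∉ Qc n := fun h4 => h ((OPB_shift R x).2 ⟨h3, h4⟩)
      rw [indicator_of_mem h3, indicator_of_notMem h4]
    · rw [indicator_of_notMem h3]

/-- means of invariant functions over signed order polytopes -/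
theorem invB (R : Fin n × Bool → Fin n × Bool → Prop) (G : (Fin n → ℝ) → ℝ) (hc : Continuous G)
    (hG : ∀ (q : Equiv.Perm (Fin n) × (Fin n → Bool)) (x : Fin n → ℝ), G (act q x) = G x) :
    ∫ x in OPB R, G (fun i => x i - 1 / 2) =
      (volume (OPB R)).toReal * ∫ x in OPp (fun _ _ : Fin n => False), G (fun i => x i - 1 / 2) := by
  have hQ : ∀ (q : Equiv.Perm (Fin n) × (Fin n → Bool)) (x : Fin n → ℝ),
      act q x ∈ Qc n ↔ x ∈ Qc n := by
    intro q x
    have e : ∀ i, |act q x i| = |x (q.1 i)| := by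
      intro i
      unfold act sg
      split_ifs <;> simp
    unfold Qc
    simp only [mem_ofPred_eq, e]
    constructor
    · intro h i
      have := h (q.1⁻¹ i)
      simpa using this
    · intro h i
      exact h _
  have gen : ∀ G : (Fin n → ℝ) → ℝ, Continuous G →
      (∀ (q : Equiv.Perm (Fin n) × (Fin n → Bool)) (x : Fin n → ℝ), G (act q x) = G x) →
      (Fintype.card (Equiv.Perm (Fin n) × (Fin n → Bool)) : ℝ) *
        ∫ x in OPB R, G (fun i => x i - 1 / 2) =
      (Lc R : ℝ) * ∫ x in OPp (fun _ _ : Fin n => False), G (fun i => x i - 1 / 2) := by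
    intro G hc hG
    have hint : Integrable ((Qc n).indicator G) := by
      rw [integrable_indicator_iff isCompact_Qc.measurableSet]
      exact hc.continuousOn.integrableOn_compact isCompact_Qc
    have h1 := symB R ((Qc n).indicator G) hint (by
      intro q x
      by_cases h : x ∈ Qc n
      · rw [indicator_of_mem h, indicator_of_mem ((hQ q x).2 h), hG]
      · rw [indicator_of_notMem h, indicator_of_notMem fun h' => h ((hQ q x).1 h')])
    have e0 : ∀ x : Fin n → ℝ, (fun y : Fin n → ℝ => G fun i => (fun i => y i + 1 / 2) i - 1 / 2) x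
        = G x := by
      intro x
      simp
    have e1 : ∫ x in OPB R, G (fun i => x i - 1 / 2) =
        ∫ x in CB R, (Qc n).indicator G x := by
      rw [int_shift R]
      congr 1
      funext x
      congr 1
      funext y
      exact e0 y
    have e2 : ∫ x in OPp (fun _ _ : Fin n => False), G (fun i => x i - 1 / 2) =
        ∫ x, (Qc n).indicator G x := by
      have e3 : OPp (fun _ _ : Fin n => False) = OPB fun _ _ : Fin n × Bool => False := by
        ext x
        simp [OPp, OPB]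
      have e4 : CB (fun _ _ : Fin n × Bool => False) = univ := by
        ext x
        simp [CB]
      rw [e3, int_shift, e4, Measure.restrict_univ]
      congr 1
      funext x
      congr 1
      funext y
      exact e0 y
    rw [e1, e2]
    exact h1
  have g1 := gen G hc hG
  have g2 := gen (fun _ => 1) continuous_const (fun _ _ => rfl)
  have e3 : ∫ x in OPp (fun _ _ : Fin n => False), (1 : ℝ) = 1 := by
    rw [rest]; simp
  have e4 : ∫ x in OPB R, (1 : ℝ) = (volume (OPB R)).toReal := by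
    simp [Measure.real]
  rw [e3, e4, mul_one] at g2
  rw [← g2] at g1
  have hpos : (Fintype.card (Equiv.Perm (Fin n) × (Fin n → Bool)) : ℝ) ≠ 0 := by
    exact_mod_cast Fintype.card_ne_zero
  apply mul_left_cancel₀ hpos
  rw [g1]
  ring

/-- the squared distance to the centre: mean and variance -/
theorem vsB (R : Fin n × Bool → Fin n × Bool → Prop) (hvol : 0 < volume (OEB R)) :
    EV (OEB R) (fun x => ∑ i, (x i - 1 / 2) ^ 2) = (n : ℝ) / 12 ∧
    VV (OEB R) (fun x => ∑ i, (x i - 1 / 2) ^ 2) = (n : ℝ) / 180 := by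
  have hV : (volume (OEB R)).toReal ≠ 0 :=
    (ENNReal.toReal_pos hvol.ne' (compactB R).measure_lt_top.ne).ne'
  have hs : ∀ (q : Equiv.Perm (Fin n) × (Fin n → Bool)) (x : Fin n → ℝ),
      ∑ i, act q x i ^ 2 = ∑ i, x i ^ 2 := by
    intro q x
    have : ∀ i, act q x i ^ 2 = x (q.1 i) ^ 2 := by
      intro i
      unfold act
      rw [mul_pow, sq (sg _), sg_sq, one_mul]
    simp only [this]
    exact Equiv.sum_comp q.1 fun i => x i ^ 2
  have c1 : Continuous (fun x : Fin n → ℝ => ∑ i, x i ^ 2) := by fun_prop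
  have e1 := invB R (fun x => ∑ i, x i ^ 2) c1 hs
  have e2 := invB R (fun x => (∑ i, x i ^ 2) ^ 2) (c1.pow 2) (fun q x => by
    show (∑ i, act q x i ^ 2) ^ 2 = (∑ i, x i ^ 2) ^ 2
    rw [hs])
  simp only at e1 e2
  rw [(momB n).1, ← (trB n R).1] at e1
  rw [(momB n).2, ← (trB n R).1] at e2
  have f1 : ∫ x in OEB R, ∑ i, (x i - 1 / 2) ^ 2 =
      (volume (OEB R)).toReal * ((n : ℝ) / 12) := by
    rw [(trB n R).2]
    exact e1
  have f2 : ∫ x in OEB R, (∑ i, (x i - 1 / 2) ^ 2) ^ 2 =
      (volume (OEB R)).toReal * ((n : ℝ) / 180 + ((n : ℝ) / 12) ^ 2) := by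
    rw [(trB n R).2]
    exact e2
  have g1 : EV (OEB R) (fun x => ∑ i, (x i - 1 / 2) ^ 2) = (n : ℝ) / 12 := by
    unfold EV
    rw [f1, mul_div_cancel_left₀ _ hV]
  refine ⟨g1, ?_⟩
  unfold VV
  rw [g1]
  unfold EV
  rw [f2, mul_div_cancel_left₀ _ hV]
  ring

end Pool.Agent.T2H73.SB
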